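import Mathlib
import Pool.Agent.Results.MP_09f43a_co.MadPartition

/-!
# Layered constructions for vertex Ramsey graphs (MP_09f43a)

`ext F X nb`: a graph `F` together with disjoint copies of `X` indexed by `L`; every vertex of the
copy with index `l` is joined to the vertices of the set `nb l` of `F`.
-/

namespace Pool.Agent.H68.CR

open Finset
open Pool.Agent.Results.MP_09f43a_co.MadPartition

/-- Disjoint copies of `X`. -/
def copies (L : Type) {U : Type} (X : SimpleGraph U) : SimpleGraph (L × U) where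
  Adj a b := a.1 = b.1 ∧ X.Adj a.2 b.2
  symm := ⟨fun _ _ h => ⟨h.1.symm, h.2.symm⟩⟩
  loopless := ⟨fun _ h => h.2.ne rfl⟩

lemma E2_copies {L U : Type} [Finite L] [Finite U] (X : SimpleGraph U) (s : Finset (L × U)) :
    E2 (copies L X) s ≤ mad X * s.card := by
  classical
  have := Fintype.ofFinite L
  have := Fintype.ofFinite U
  let sl : L → Finset U := fun l => univ.filter (fun x => (l, x) ∈ s)
  have key : ∀ f : L × U → ℝ, ∑ a ∈ s, f a = ∑ l : L, ∑ x ∈ sl l, f (l, x) := by
    intro f
    exact Finset.sum_finset_product s univ sl (by rintro ⟨l, x⟩; simp [sl])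
  have hcard : (s.card : ℝ) = ∑ l : L, ((sl l).card : ℝ) := by
    have := key (fun _ => 1)
    simpa using this
  have hE : E2 (copies L X) s = ∑ l : L, E2 X (sl l) := by
    unfold E2
    rw [key]
    apply Finset.sum_congr rfl
    intro l _
    apply Finset.sum_congr rfl
    intro x _
    rw [key]
    rw [Finset.sum_eq_single l]
    · apply Finset.sum_congr rfl
      intro y _
      simp [copies]
    · intro l' _ hne
      apply Finset.sum_eq_zero
      intro y _
      have : ¬ (copies L X).Adj (l, x) (l', y) := fun h => hne h.1.symm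
      simp [this]
    · intro h
      exact absurd (Finset.mem_univ _) h
  rw [hE, hcard, Finset.mul_sum]
  exact Finset.sum_le_sum fun l _ => E2_le_mad X (sl l)

/-- The layered extension. -/
def ext {V U L : Type} (F : SimpleGraph V) (X : SimpleGraph U) (nb : L → Set V) :
    SimpleGraph (V ⊕ (L × U)) where
  Adj a b := match a, b with
    | Sum.inl x, Sum.inl y => F.Adj x y
    | Sum.inl x, Sum.inr y => x ∈ nb y.1
    | Sum.inr x, Sum.inl y => y ∈ nb x.1
    | Sum.inr x, Sum.inr y => (copies L X).Adj x y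
  symm := ⟨by
    rintro (x | x) (y | y) h
    · exact F.symm.symm _ _ h
    · exact h
    · exact h
    · exact (copies L X).symm.symm _ _ h⟩
  loopless := ⟨by
    rintro (x | x) h
    · exact F.loopless.irrefl _ h
    · exact (copies L X).loopless.irrefl _ h⟩

lemma mad_ext {V U L : Type} [Finite V] [Finite U] [Finite L] (F : SimpleGraph V)
    (X : SimpleGraph U) (nb : L → Set V) {M : ℝ} {k : ℕ} (hM : mad F ≤ M)
    (hk : ∀ l, (nb l).ncard ≤ k) (hX : mad X + 2 * k ≤ M) : mad (ext F X nb) ≤ M := by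
  classical
  have := Fintype.ofFinite V
  have := Fintype.ofFinite L
  have := Fintype.ofFinite U
  have hM0 : 0 ≤ M := (mad_nonneg F).trans hM
  rw [mad_le_iff _ hM0]
  intro s
  set s1 := s.toLeft with hs1
  set s2 := s.toRight with hs2
  have hsum : ∀ f : V ⊕ (L × U) → ℝ, ∑ a ∈ s, f a
      = ∑ a ∈ s1, f (Sum.inl a) + ∑ a ∈ s2, f (Sum.inr a) := by
    intro f
    rw [← Finset.toLeft_disjSum_toRight (u := s), Finset.sum_disjSum]
  have hcross : ∀ y ∈ s2, ∑ x ∈ s1, (if x ∈ nb y.1 then (1 : ℝ) else 0) ≤ k := by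
    intro y _
    rw [← Finset.sum_filter, Finset.sum_const, nsmul_eq_mul, mul_one]
    have h1 : (s1.filter (fun x => x ∈ nb y.1)).card ≤ (nb y.1).ncard := by
      rw [← Set.ncard_coe_finset]
      apply Set.ncard_le_ncard _ (Set.toFinite _)
      intro x hx
      exact (Finset.mem_filter.mp (Finset.mem_coe.mp hx)).2
    exact_mod_cast h1.trans (hk y.1)
  have hE : E2 (ext F X nb) s = E2 F s1 + E2 (copies L X) s2
      + 2 * ∑ y ∈ s2, ∑ x ∈ s1, (if x ∈ nb y.1 then (1 : ℝ) else 0) := by
    unfold E2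
    rw [hsum]
    simp_rw [hsum]
    rw [Finset.sum_add_distrib, Finset.sum_add_distrib]
    have e1 : ∑ a ∈ s1, ∑ b ∈ s2, (if (ext F X nb).Adj (Sum.inl a) (Sum.inr b) then (1 : ℝ) else 0)
        = ∑ y ∈ s2, ∑ x ∈ s1, (if x ∈ nb y.1 then (1 : ℝ) else 0) := by
      rw [Finset.sum_comm]
      rfl
    have e2 : ∑ a ∈ s2, ∑ b ∈ s1, (if (ext F X nb).Adj (Sum.inr a) (Sum.inl b) then (1 : ℝ) else 0)
        = ∑ y ∈ s2, ∑ x ∈ s1, (if x ∈ nb y.1 then (1 : ℝ) else 0) := rfl
    rw [e1, e2]
    have e3 : ∑ a ∈ s1, ∑ b ∈ s1, (if (ext F X nb).Adj (Sum.inl a) (Sum.inl b) then (1 : ℝ) else 0)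
        = ∑ a ∈ s1, ∑ b ∈ s1, (if F.Adj a b then (1 : ℝ) else 0) := rfl
    have e4 : ∑ a ∈ s2, ∑ b ∈ s2, (if (ext F X nb).Adj (Sum.inr a) (Sum.inr b) then (1 : ℝ) else 0)
        = ∑ a ∈ s2, ∑ b ∈ s2, (if (copies L X).Adj a b then (1 : ℝ) else 0) := rfl
    rw [e3, e4]
    ring
  have h1 : E2 F s1 ≤ M * s1.card :=
    (E2_le_mad F s1).trans (mul_le_mul_of_nonneg_right hM (by positivity))
  have h2 := E2_copies (L := L) X s2
  have h3 : ∑ y ∈ s2, ∑ x ∈ s1, (if x ∈ nb y.1 then (1 : ℝ) else 0) ≤ k * s2.card := by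
    refine (Finset.sum_le_sum hcross).trans ?_
    rw [Finset.sum_const, nsmul_eq_mul, mul_comm]
  have h4 : (s.card : ℝ) = s1.card + s2.card := by
    rw [← Finset.card_toLeft_add_card_toRight (u := s)]
    push_cast
    rfl
  rw [hE, h4]
  have h5 : (mad X + 2 * k) * (s2.card : ℝ) ≤ M * s2.card :=
    mul_le_mul_of_nonneg_right hX (by positivity)
  nlinarith

/-- The graph `G'` with one new vertex, joined to the vertices of `N`. -/
def addv {W : Type} (G' : SimpleGraph W) (N : Set W) : SimpleGraph (Option W) where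
  Adj a b := match a, b with
    | some x, some y => G'.Adj x y
    | some x, none => x ∈ N
    | none, some y => y ∈ N
    | none, none => False
  symm := ⟨by
    rintro (_ | x) (_ | y) h
    · exact h
    · exact h
    · exact h
    · exact G'.symm.symm _ _ h⟩
  loopless := ⟨by
    rintro (_ | x) h
    · exact h
    · exact G'.loopless.irrefl _ h⟩

/-- A copy of `G` in `F` all of whose vertices have the colour `i`. -/
def Mono {V W : Type} {r : ℕ} (F : SimpleGraph V) (G : SimpleGraph W) (c : V → Fin r)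
    (i : Fin r) : Prop :=
  ∃ f : W → V, Function.Injective f ∧ (∀ a b, G.Adj a b → F.Adj (f a) (f b)) ∧ ∀ a, c (f a) = i

lemma arrows_iff {V W : Type} (F : SimpleGraph V) (G : SimpleGraph W) (r : ℕ) :
    Arrows F G r ↔ ∀ c : V → Fin r, ∃ i, Mono F G c i := Iff.rfl

/-- `F` forces a monochromatic `G` or monochromatic copies of `G'` in `j` different colours. -/
def Part {V W W' : Type} (F : SimpleGraph V) (G : SimpleGraph W) (G' : SimpleGraph W')
    (r j : ℕ) : Prop :=
  ∀ c : V → Fin r, (∃ i, Mono F G c i) ∨ ∃ A : Finset (Fin r), A.card = j ∧ ∀ i ∈ A, Mono F G' c i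

/-- Colourings with a restricted set of colours. -/
lemma arrows_sub {U W : Type} (X : SimpleGraph U) (H : SimpleGraph W) {r k : ℕ}
    (h : Arrows X H k) (B : Finset (Fin r)) (hB : B.card = k) (c : U → Fin r)
    (hc : ∀ y, c y ∈ B) : ∃ i ∈ B, Mono X H c i := by
  classical
  let e : B ≃ Fin k := B.equivFinOfCardEq hB
  obtain ⟨i, f, hf1, hf2, hf3⟩ := h (fun y => e ⟨c y, hc y⟩)
  refine ⟨(e.symm i).1, (e.symm i).2, f, hf1, hf2, fun a => ?_⟩
  have h1 := hf3 a
  have h2 : (⟨c (f a), hc (f a)⟩ : B) = e.symm i := by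
    rw [← h1]; simp
  exact congrArg Subtype.val h2

/-- **The step lemma.** -/
lemma step {V U W' Wh : Type} [Finite V] [Finite U] [Finite W'] (F : SimpleGraph V)
    (X : SimpleGraph U) (G' : SimpleGraph W') (N : Set W') (H : SimpleGraph Wh) {r j : ℕ}
    (hF : Part F (addv G' N) G' r j) (hX : Arrows X H (r - j)) {M : ℝ}
    (hM : mad F ≤ M) (hXM : mad X + 2 * (j * N.ncard : ℕ) ≤ M) :
    ∃ (V' : Type) (_ : Finite V') (F' : SimpleGraph V'), mad F' ≤ M ∧
      ∀ c : V' → Fin r, (∃ i, Mono F' (addv G' N) c i) ∨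
        ∃ A : Finset (Fin r), A.card = j ∧ (∀ i ∈ A, Mono F' G' c i) ∧
          ∃ i, i ∉ A ∧ Mono F' H c i := by
  classical
  have := Fintype.ofFinite V
  have := Fintype.ofFinite W'
  let L : Type := Fin j → (W' → V)
  let nb : L → Set V := fun l => ⋃ a : Fin j, (l a) '' N
  have : Finite L := inferInstance
  refine ⟨V ⊕ (L × U), inferInstance, ext F X nb, ?_, ?_⟩
  · refine mad_ext F X nb hM (k := j * N.ncard) ?_ ?_
    · intro l
      calc (nb l).ncard ≤ ∑ a : Fin j, ((l a) '' N).ncard := by
            have := Set.ncard_iUnion_le_of_fintype (fun a : Fin j => (l a) '' N)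
            exact this
        _ ≤ ∑ a : Fin j, N.ncard := by
            apply Finset.sum_le_sum
            intro a _
            exact Set.ncard_image_le (Set.toFinite _)
        _ = j * N.ncard := by simp
    · exact hXM
  · intro c
    rcases hF (fun x => c (Sum.inl x)) with ⟨i, f, hf1, hf2, hf3⟩ | ⟨A, hA, hAc⟩
    · left
      exact ⟨i, fun w => Sum.inl (f w), Sum.inl_injective.comp hf1, hf2, hf3⟩
    · have hAc' : ∀ i ∈ A, Mono (ext F X nb) G' c i := by
        intro i hi
        obtain ⟨f, hf1, hf2, hf3⟩ := hAc i hi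
        exact ⟨fun w => Sum.inl (f w), Sum.inl_injective.comp hf1, hf2, hf3⟩
      choose f hf1 hf2 hf3 using hAc
      let e : A ≃ Fin j := A.equivFinOfCardEq hA
      let l : L := fun a => f (e.symm a).1 (e.symm a).2
      by_cases hall : ∀ y : U, c (Sum.inr (l, y)) ∈ Aᶜ
      · right
        refine ⟨A, hA, hAc', ?_⟩
        obtain ⟨i, hi, g, hg1, hg2, hg3⟩ := arrows_sub X H hX Aᶜ
          (by rw [Finset.card_compl, hA]; simp) (fun y => c (Sum.inr (l, y))) hall
        refine ⟨i, by simpa using hi, fun w => Sum.inr (l, g w), ?_, ?_, hg3⟩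
        · intro a b hab
          apply hg1
          simpa using hab
        · intro a b hab
          exact ⟨rfl, hg2 a b hab⟩
      · left
        push Not at hall
        obtain ⟨y, hy⟩ := hall
        have hyA : c (Sum.inr (l, y)) ∈ A := by simpa using hy
        set i := c (Sum.inr (l, y)) with hi
        refine ⟨i, fun w => match w with
          | none => Sum.inr (l, y)
          | some x => Sum.inl (f i hyA x), ?_, ?_, ?_⟩
        · rintro (_ | a) (_ | b) hab
          · rfl
          · exact absurd hab (by simp)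
          · exact absurd hab (by simp)
          · rw [hf1 i hyA (Sum.inl_injective hab)]
        · have hmem : ∀ x ∈ N, f i hyA x ∈ nb l := by
            intro x hx
            refine Set.mem_iUnion.mpr ⟨e ⟨i, hyA⟩, x, hx, ?_⟩
            simp [l]
          rintro (_ | a) (_ | b) hab
          · exact hab.elim
          · exact hmem b hab
          · exact hmem a hab
          · exact hf2 i hyA a b hab
        · rintro (_ | a)
          · rfl
          · exact hf3 i hyA a

end Pool.Agent.H68.CR
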