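import Mathlib
import Pool.Agent.H68.CRa

/-!
# One vertex of small degree, and the core (MP_09f43a)
-/

namespace Pool.Agent.H68.CR

open Finset
open Pool.Agent.Results.MP_09f43a_co.MadPartition

lemma mcr_mono {W W2 : Type} [Finite W2] (G : SimpleGraph W) (G2 : SimpleGraph W2) (f : W → W2)
    (hinj : Function.Injective f) (hf : ∀ a b, G.Adj a b → G2.Adj (f a) (f b)) {r : ℕ}
    (hr : 1 ≤ r) : mcr G r ≤ mcr G2 r := by
  conv_rhs => unfold mcr
  apply le_csInf (mcr_nonempty G2 hr)
  rintro x ⟨n, F, hF, rfl⟩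
  apply mcr_le
  intro c
  obtain ⟨i, g, hg1, hg2, hg3⟩ := hF c
  exact ⟨i, g ∘ f, hg1.comp hinj, fun a b hab => hg2 _ _ (hf a b hab), fun a => hg3 _⟩

lemma mcr_approx {W : Type} [Finite W] (G : SimpleGraph W) {r : ℕ} (hr : 1 ≤ r) {ε : ℝ}
    (hε : 0 < ε) : ∃ (n : ℕ) (F : SimpleGraph (Fin n)), Arrows F G r ∧ mad F ≤ mcr G r + ε := by
  have h : mcr G r < mcr G r + ε := by linarith
  conv at h => lhs; unfold mcr
  obtain ⟨x, ⟨n, F, hF, rfl⟩, hx⟩ := exists_lt_of_csInf_lt (mcr_nonempty G hr) h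
  exact ⟨n, F, hF, hx.le⟩

lemma mad_of_isEmpty {V : Type} [IsEmpty V] (F : SimpleGraph V) : mad F ≤ 0 := by
  rw [mad_le_iff _ le_rfl]
  intro s
  have : s = ∅ := Finset.eq_empty_of_isEmpty s
  subst this
  simp [E2]

lemma beta_add (β : ℕ → ℝ) (x : ℝ) (R : ℕ)
    (hβ : ∀ k : ℕ, 1 ≤ k → k < R → β k + x ≤ β (k + 1)) (j k : ℕ)
    (hk : 1 ≤ k) (hR : k + j ≤ R) : β k + j * x ≤ β (k + j) := by
  induction j with
  | zero => simp
  | succ n ih =>
    have := hβ (k + n) (by omega) (by omega)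
    have := ih (by omega)
    push_cast
    rw [← add_assoc k n 1]
    linarith

lemma one_vertex {W' : Type} [Finite W'] (G' : SimpleGraph W') (N : Set W') (β : ℕ → ℝ) (x : ℝ)
    (hx : 2 * (N.ncard : ℝ) ≤ x) (h1 : mad (addv G' N) ≤ β 1) {r : ℕ} (hr : 1 ≤ r)
    (hβ : ∀ k : ℕ, 1 ≤ k → k < r → β k + x ≤ β (k + 1))
    (hG' : ∀ k : ℕ, 1 ≤ k → k ≤ r → mcr G' k ≤ β k) : mcr (addv G' N) r ≤ β r := by
  classical
  have hβ0 : 0 ≤ β r := (mcr_nonneg G' r).trans (hG' r hr le_rfl)
  apply le_of_forall_pos_le_add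
  intro ε hε
  have hcost : ∀ j : ℕ, 2 * ((j * N.ncard : ℕ) : ℝ) ≤ j * x := by
    intro j
    push_cast
    have := mul_le_mul_of_nonneg_left hx (Nat.cast_nonneg (α := ℝ) j)
    linarith
  have claim : ∀ j : ℕ, j + 1 ≤ r → ∃ (V' : Type) (_ : Finite V') (F' : SimpleGraph V'),
      mad F' ≤ β r + ε ∧ Part F' (addv G' N) G' r j := by
    intro j
    induction j with
    | zero =>
      intro _
      refine ⟨Empty, inferInstance, ⊥, (mad_of_isEmpty _).trans (by linarith), ?_⟩
      intro c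
      right
      exact ⟨∅, rfl, by simp⟩
    | succ j ih =>
      intro hj
      obtain ⟨V, hV, F, hFm, hFp⟩ := ih (by omega)
      obtain ⟨n, X, hX, hXm⟩ := mcr_approx G' (r := r - j) (by omega) hε
      have hb := beta_add β x r hβ j (r - j) (by omega) (by omega)
      rw [Nat.sub_add_cancel (by omega : j ≤ r)] at hb
      have hg := hG' (r - j) (by omega) (by omega)
      obtain ⟨V', hV', F', hF'm, hF'p⟩ := step F X G' N G' hFp hX hFm
        (by have := hcost j; linarith)
      refine ⟨V', hV', F', hF'm, ?_⟩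
      intro c
      rcases hF'p c with h | ⟨A, hA, hAc, i, hi, hiA⟩
      · exact Or.inl h
      · right
        refine ⟨insert i A, by rw [Finset.card_insert_of_notMem hi, hA], ?_⟩
        intro i' hi'
        rcases Finset.mem_insert.mp hi' with rfl | h
        · exact hiA
        · exact hAc i' h
  obtain ⟨V, hV, F, hFm, hFp⟩ := claim (r - 1) (by omega)
  have harr : Arrows (addv G' N) (addv G' N) (r - (r - 1)) := by
    have : r - (r - 1) = 1 := by omega
    rw [this]
    intro c
    exact ⟨0, id, Function.injective_id, fun a b h => h, fun a => Subsingleton.elim _ _⟩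
  have hb := beta_add β x r hβ (r - 1) 1 le_rfl (by omega)
  rw [show 1 + (r - 1) = r by omega] at hb
  obtain ⟨V', hV', F', hF'm, hF'p⟩ := step F (addv G' N) G' N (addv G' N) hFp harr hFm
    (by have := hcost (r - 1); linarith)
  refine (mcr_le F' _ r ?_).trans hF'm
  intro c
  rcases hF'p c with h | ⟨A, hA, hAc, i, hi, hiA⟩
  · exact h
  · exact ⟨i, hiA⟩

/-- The number of neighbours of `v` in `T`. -/
noncomputable def dg {W : Type} (G : SimpleGraph W) (T : Set W) (v : W) : ℕ :=
  {u | u ∈ T ∧ G.Adj v u}.ncard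

lemma general {W : Type} [Finite W] (G : SimpleGraph W) (x : ℝ) (S : Set W)
    (hS : ∀ T : Set W, S ⊂ T → ∃ v ∈ T \ S, 2 * (dg G T v : ℝ) ≤ x) (β : ℕ → ℝ)
    (h1 : mad G ≤ β 1) (R : ℕ) (hβ : ∀ k : ℕ, 1 ≤ k → k < R → β k + x ≤ β (k + 1))
    (hSβ : ∀ k : ℕ, 1 ≤ k → k ≤ R → mcr (G.induce S) k ≤ β k) :
    ∀ (n : ℕ) (T : Set W), S ⊆ T → (T \ S).ncard = n → ∀ k : ℕ, 1 ≤ k → k ≤ R →
      mcr (G.induce T) k ≤ β k := by
  classical
  intro n
  induction n with
  | zero =>
    intro T hST hT k hk hkR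
    have h2 : T \ S = ∅ := (Set.ncard_eq_zero (Set.toFinite _)).mp hT
    have h3 : T = S := Set.Subset.antisymm (Set.sdiff_eq_empty.mp h2) hST
    subst h3
    exact hSβ k hk hkR
  | succ n ih =>
    intro T hST hT k hk hkR
    have hne : S ≠ T := by
      rintro rfl
      simp at hT
    obtain ⟨v, ⟨hvT, hvS⟩, hv⟩ := hS T (LE.le.ssubset_of_ne hST hne)
    set T' : Set W := T \ {v} with hT'
    have hST' : S ⊆ T' := fun u hu => ⟨hST hu, fun h => hvS (by rw [← h]; exact hu)⟩
    have hcard : (T' \ S).ncard = n := by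
      have e1 : T' \ S = (T \ S) \ {v} := by
        ext u
        simp only [hT', Set.mem_sdiff, Set.mem_singleton_iff]
        tauto
      rw [e1, Set.ncard_sdiff_singleton_of_mem (show v ∈ T \ S from ⟨hvT, hvS⟩), hT]
      rfl
    have hIH := ih T' hST' hcard
    let N : Set T' := {u | G.Adj v u.1}
    have hN : N.ncard ≤ dg G T v := by
      rw [← Set.ncard_image_of_injective N Subtype.val_injective]
      apply Set.ncard_le_ncard _ (Set.toFinite _)
      rintro _ ⟨u, hu, rfl⟩
      exact ⟨u.2.1, hu⟩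
    have hNx : 2 * (N.ncard : ℝ) ≤ x := by
      have : (N.ncard : ℝ) ≤ dg G T v := by exact_mod_cast hN
      linarith
    have hmad : mad (addv (G.induce T') N) ≤ β 1 := by
      refine le_trans ?_ h1
      refine mad_mono _ _ (fun w => match w with
        | none => v
        | some u => u.1) ?_ ?_
      · rintro (_ | a) (_ | b) hab
        · rfl
        · exact absurd hab.symm b.2.2
        · exact absurd hab a.2.2
        · exact congrArg some (Subtype.ext hab)
      · rintro (_ | a) (_ | b) hab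
        · exact hab.elim
        · exact hab
        · exact G.symm.symm _ _ hab
        · exact hab
    have h4 := one_vertex (G.induce T') N β x hNx hmad hk
      (fun k' h h' => hβ k' h (by omega)) (fun k' h h' => hIH k' h (by omega))
    refine le_trans ?_ h4
    refine mcr_mono _ _ (fun w : T => if h : w.1 = v then none else some ⟨w.1, w.2, h⟩) ?_ ?_ hk
    · intro a b hab
      by_cases ha : a.1 = v <;> by_cases hb : b.1 = v
      · exact Subtype.ext (ha.trans hb.symm)
      · simp [ha, hb] at hab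
      · simp [ha, hb] at hab
      · simp only [ha, hb, dif_neg, not_false_iff, Option.some.injEq, Subtype.mk.injEq] at hab
        exact Subtype.ext hab
    · intro a b hab
      have hab' : G.Adj a.1 b.1 := hab
      by_cases ha : a.1 = v <;> by_cases hb : b.1 = v
      · exact absurd (ha.trans hb.symm) hab'.ne
      · simp only [ha, hb, dif_pos, dif_neg, not_false_iff]
        show G.Adj v b.1
        rw [← ha]; exact hab'
      · simp only [ha, hb, dif_pos, dif_neg, not_false_iff]
        show G.Adj v a.1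
        rw [← hb]; exact hab'.symm
      · simp only [ha, hb, dif_neg, not_false_iff]
        exact hab'

lemma general' {W : Type} [Finite W] (G : SimpleGraph W) (x : ℝ) (S : Set W)
    (hS : ∀ T : Set W, S ⊂ T → ∃ v ∈ T \ S, 2 * (dg G T v : ℝ) ≤ x) (β : ℕ → ℝ)
    (h1 : mad G ≤ β 1) {r : ℕ} (hr : 1 ≤ r)
    (hβ : ∀ k : ℕ, 1 ≤ k → k < r → β k + x ≤ β (k + 1))
    (hSβ : ∀ k : ℕ, 1 ≤ k → k ≤ r → mcr (G.induce S) k ≤ β k) :
    mcr G r ≤ β r := by
  refine le_trans ?_ (general G x S hS β h1 r hβ hSβ _ Set.univ (Set.subset_univ _) rfl r hr le_rfl)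
  exact mcr_mono _ _ (fun w => ⟨w, Set.mem_univ _⟩) (fun a b hab => congrArg Subtype.val hab)
    (fun a b hab => hab) hr

end Pool.Agent.H68.CR
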