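import Mathlib
import Pool.Agent.H68.CRb

/-!
# The three consequences (MP_09f43a)
-/

namespace Pool.Agent.H68.CR

open Finset
open Pool.Agent.Results.MP_09f43a_co.MadPartition

/-- The degeneracy: the largest minimum degree of a nonempty subgraph. -/
noncomputable def dstar {W : Type} (G : SimpleGraph W) : ℕ :=
  sSup {k : ℕ | ∃ H : G.Subgraph, H.verts.Nonempty ∧ ∀ v ∈ H.verts, k ≤ (H.neighborSet v).ncard}

/-- The `x`-core of `G`: the union of all vertex sets `T` all of whose vertices have more than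
`x / 2` neighbours in `T`. -/
def core (x : ℝ) {W : Type} (G : SimpleGraph W) : Set W :=
  ⋃₀ {T : Set W | ∀ v ∈ T, x < 2 * (dg G T v : ℝ)}

lemma dg_mono {W : Type} [Finite W] (G : SimpleGraph W) {T T' : Set W} (h : T ⊆ T') (v : W) :
    dg G T v ≤ dg G T' v :=
  Set.ncard_le_ncard (fun _ hu => ⟨h hu.1, hu.2⟩) (Set.toFinite _)

lemma core_deg (x : ℝ) {W : Type} [Finite W] (G : SimpleGraph W) {v : W} (hv : v ∈ core x G) :
    x < 2 * (dg G (core x G) v : ℝ) := by
  obtain ⟨T, hT, hvT⟩ := hv
  have h1 := hT v hvT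
  have h2 : T ⊆ core x G := Set.subset_sUnion_of_mem hT
  have h3 : (dg G T v : ℝ) ≤ dg G (core x G) v := by exact_mod_cast dg_mono G h2 v
  linarith

lemma core_max (x : ℝ) {W : Type} [Finite W] (G : SimpleGraph W) (T : Set W)
    (hT : core x G ⊂ T) : ∃ v ∈ T \ core x G, 2 * (dg G T v : ℝ) ≤ x := by
  by_contra hcon
  push Not at hcon
  have : T ⊆ core x G := by
    apply Set.subset_sUnion_of_mem
    intro v hv
    by_cases hvc : v ∈ core x G
    · have h1 := core_deg x G hvc
      have h2 : (dg G (core x G) v : ℝ) ≤ dg G T v := by exact_mod_cast dg_mono G hT.subset v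
      linarith
    · exact hcon v ⟨hv, hvc⟩
  exact hT.not_subset this

/-- **Part 0.** -/
theorem mcr_le_core (x : ℝ) {W : Type} [Finite W] (G : SimpleGraph W) {r : ℕ} (hr : 1 ≤ r)
    (B : ℝ) (h1 : mad G + ((r : ℝ) - 1) * x ≤ B)
    (h2 : ∀ k : ℕ, 1 ≤ k → k ≤ r → mcr (G.induce (core x G)) k + ((r : ℝ) - k) * x ≤ B) :
    mcr G r ≤ B := by
  have h := general' G x (core x G) (core_max x G) (fun k => B - ((r : ℝ) - k) * x) ?_ hr ?_ ?_
  · simpa using h
  · push_cast
    linarith
  · intro k _ _
    push_cast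
    linarith
  · intro k hk hkr
    have := h2 k hk hkr
    show mcr (G.induce (core x G)) k ≤ B - ((r : ℝ) - k) * x
    linarith

lemma exists_low {W : Type} [Finite W] (G : SimpleGraph W) (T : Set W) (hT : T.Nonempty) :
    ∃ v ∈ T, dg G T v ≤ dstar G := by
  classical
  have := Fintype.ofFinite W
  obtain ⟨v, hv, hmin⟩ := Set.exists_min_image T (dg G T) (Set.toFinite _) hT
  refine ⟨v, hv, ?_⟩
  unfold dstar
  apply le_csSup
  · refine ⟨Nat.card W, ?_⟩
    rintro k ⟨H, ⟨w, hw⟩, hH⟩
    refine (hH w hw).trans ?_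
    rw [← Set.ncard_univ]
    exact Set.ncard_le_ncard (Set.subset_univ _) (Set.toFinite _)
  · refine ⟨(⊤ : G.Subgraph).induce T, hT, ?_⟩
    intro w hw
    refine (hmin w hw).trans (le_of_eq ?_)
    unfold dg
    congr 1
    ext u
    simp only [Set.mem_ofPred_eq, SimpleGraph.Subgraph.mem_neighborSet,
      SimpleGraph.Subgraph.induce_adj, SimpleGraph.Subgraph.top_adj]
    constructor
    · rintro ⟨h1, h2⟩
      exact ⟨hw, h1, h2⟩
    · rintro ⟨-, h1, h2⟩
      exact ⟨h1, h2⟩

lemma core_dstar {W : Type} [Finite W] (G : SimpleGraph W) :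
    core (2 * (dstar G : ℝ)) G = ∅ := by
  by_contra hne
  obtain ⟨v, hv, hle⟩ := exists_low G _ (Set.nonempty_iff_ne_empty.mpr hne)
  have h1 := core_deg _ G hv
  have : (dg G (core (2 * (dstar G : ℝ)) G) v : ℝ) ≤ dstar G := by exact_mod_cast hle
  linarith

lemma mcr_empty {W : Type} (G : SimpleGraph W) (S : Set W) (hS : S = ∅) {k : ℕ} (hk : 1 ≤ k) :
    mcr (G.induce S) k ≤ 0 := by
  subst hS
  refine (mcr_le (⊥ : SimpleGraph Empty) _ k ?_).trans (mad_of_isEmpty _)
  intro c
  exact ⟨⟨0, hk⟩, fun w => (w.2 : False).elim, fun a => (a.2 : False).elim,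
    fun a => (a.2 : False).elim, fun a => (a.2 : False).elim⟩

/-- **Part 1.** -/
theorem mcr_le_dstar {W : Type} [Finite W] (G : SimpleGraph W) {r : ℕ} (hr : 1 ≤ r) :
    mcr G r ≤ mad G + 2 * ((r : ℝ) - 1) * dstar G := by
  apply mcr_le_core (2 * (dstar G : ℝ)) G hr
  · linarith
  · intro k hk hkr
    have h1 := mcr_empty G _ (core_dstar G) hk
    have h2 : (1 : ℝ) ≤ k := by exact_mod_cast hk
    have h3 := mad_nonneg G
    have h4 : (0 : ℝ) ≤ dstar G := by positivity
    nlinarith

lemma E2_erase {W : Type} [Finite W] [DecidableEq W] (G : SimpleGraph W) (s : Finset W) {v : W}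
    (hv : v ∈ s) : E2 G s = E2 G (s.erase v) + 2 * (dg G (s : Set W) v : ℝ) := by
  classical
  have hd : (dg G (s : Set W) v : ℝ) = ∑ u ∈ s, if G.Adj v u then (1 : ℝ) else 0 := by
    rw [← Finset.sum_filter, Finset.sum_const, nsmul_eq_mul, mul_one]
    congr 1
    unfold dg
    rw [← Set.ncard_coe_finset]
    congr 1
    ext u
    simp
  have hd2 : (dg G (s : Set W) v : ℝ) = ∑ u ∈ s.erase v, if G.Adj v u then (1 : ℝ) else 0 := by
    rw [hd, ← Finset.add_sum_erase s _ hv]
    simp
  have hd3 : (dg G (s : Set W) v : ℝ) = ∑ u ∈ s.erase v, if G.Adj u v then (1 : ℝ) else 0 := by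
    rw [hd2]
    simp only [SimpleGraph.adj_comm]
  have e1 : E2 G s = ∑ u ∈ s, ∑ w ∈ s, if G.Adj u w then (1 : ℝ) else 0 := rfl
  have e2 : E2 G (s.erase v)
      = ∑ u ∈ s.erase v, ∑ w ∈ s.erase v, if G.Adj u w then (1 : ℝ) else 0 := rfl
  rw [e1, ← Finset.add_sum_erase s _ hv, ← hd]
  have e3 : ∑ u ∈ s.erase v, ∑ w ∈ s, (if G.Adj u w then (1 : ℝ) else 0)
      = E2 G (s.erase v) + dg G (s : Set W) v := by
    rw [e2, hd3, ← Finset.sum_add_distrib]
    apply Finset.sum_congr rfl
    intro u _
    rw [← Finset.add_sum_erase s _ hv, add_comm]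
  rw [e3]
  ring

lemma exists_densest {W : Type} [Finite W] [Nonempty W] (G : SimpleGraph W) :
    ∃ s : Finset W, s.Nonempty ∧ E2 G s = mad G * s.card := by
  classical
  have := Fintype.ofFinite W
  obtain ⟨s, hs, hmax⟩ := Finset.exists_max_image
    ((univ : Finset (Finset W)).filter (fun s => s.Nonempty)) (fun s => E2 G s / s.card)
    ⟨univ, by simp [Finset.univ_nonempty]⟩
  have hsne : s.Nonempty := (Finset.mem_filter.mp hs).2
  have hpos : (0 : ℝ) < s.card := by exact_mod_cast hsne.card_pos
  refine ⟨s, hsne, le_antisymm (E2_le_mad G s) ?_⟩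
  have hE0 : 0 ≤ E2 G s := by
    unfold E2
    apply Finset.sum_nonneg; intro u _
    apply Finset.sum_nonneg; intro v _
    split_ifs <;> norm_num
  have h1 : mad G ≤ E2 G s / s.card := by
    rw [mad_le_iff _ (div_nonneg hE0 hpos.le)]
    intro t
    rcases t.eq_empty_or_nonempty with rfl | ht
    · simp [E2]
    · have h2 := hmax t (by simp [ht])
      have htpos : (0 : ℝ) < t.card := by exact_mod_cast ht.card_pos
      rwa [div_le_iff₀ htpos] at h2
  rwa [le_div_iff₀ hpos] at h1

lemma mad_core {W : Type} [Finite W] (G : SimpleGraph W) {x : ℝ} (hx : x ≤ mad G) :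
    mad G ≤ mad (G.induce (core x G)) := by
  classical
  have := Fintype.ofFinite W
  rcases (mad_nonneg G).eq_or_lt with h0 | hpos
  · rw [← h0]; exact mad_nonneg _
  rcases isEmpty_or_nonempty W with hW | hW
  · have := mad_of_isEmpty G
    linarith
  obtain ⟨s0, hs0, hE0⟩ := exists_densest G
  obtain ⟨s, hs, hmin⟩ := Finset.exists_min_image
    ((univ : Finset (Finset W)).filter (fun s => s.Nonempty ∧ E2 G s = mad G * s.card))
    (fun s => s.card) ⟨s0, by simp [hs0, hE0]⟩
  obtain ⟨-, hsne, hsE⟩ := Finset.mem_filter.mp hs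
  have hsub : (s : Set W) ⊆ core x G := by
    apply Set.subset_sUnion_of_mem
    intro v hv
    have hv' : v ∈ s := hv
    by_contra hcon
    push Not at hcon
    have h1 := E2_erase G s hv'
    have hcon := hcon.trans hx
    have h2 := E2_le_mad G (s.erase v)
    have h3 : ((s.erase v).card : ℝ) = s.card - 1 := by
      rw [Finset.card_erase_of_mem hv', Nat.cast_sub hsne.card_pos]
      simp
    have h4 : E2 G (s.erase v) = mad G * (s.erase v).card := by
      apply le_antisymm h2
      rw [h3]
      linarith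
    rcases (s.erase v).eq_empty_or_nonempty with he | hne
    · have h5 : E2 G (s.erase v) = 0 := by rw [he]; simp [E2]
      have h6 : s = {v} := by
        rw [← Finset.insert_erase hv', he]
        rfl
      have h7 : E2 G s = 0 := by
        rw [h6]; simp [E2]
      rw [h7] at hsE
      have h8 : (0 : ℝ) < s.card := by exact_mod_cast hsne.card_pos
      have := mul_pos hpos h8
      linarith
    · have h5 := hmin (s.erase v) (by simp only [mem_filter, mem_univ, true_and]; exact ⟨hne, h4⟩)
      have h6 := Finset.card_erase_lt_of_mem hv'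
      exact absurd h5 (not_le.mpr h6)
  -- the densest set sits inside the core
  let t : Finset (core x G) := s.subtype (fun v => v ∈ core x G)
  have ht : t.map (Function.Embedding.subtype _) = s := by
    rw [Finset.subtype_map]
    apply Finset.filter_true_of_mem
    intro v hv
    exact hsub hv
  have hEt : E2 (G.induce (core x G)) t = E2 G s := by
    conv_rhs => rw [← ht]
    unfold E2
    rw [Finset.sum_map]
    apply Finset.sum_congr rfl
    intro u _
    rw [Finset.sum_map]
    rfl
  have hct : t.card = s.card := by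
    conv_rhs => rw [← ht]
    rw [Finset.card_map]
  have h1 := E2_le_mad (G.induce (core x G)) t
  rw [hEt, hct, hsE] at h1
  have h2 : (0 : ℝ) < s.card := by exact_mod_cast hsne.card_pos
  exact le_of_mul_le_mul_right h1 h2

/-- **Part 2.** -/
theorem mcr_core {W : Type} [Finite W] (G : SimpleGraph W) {r : ℕ} (hr : 1 ≤ r) :
    mcr G r = mcr (G.induce (core (mad G) G)) r := by
  have hm := mad_core G le_rfl
  have hstep : ∀ k : ℕ, 1 ≤ k →
      mcr (G.induce (core (mad G) G)) k + mad G ≤ mcr (G.induce (core (mad G) G)) (k + 1) := by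
    intro k hk
    have h1 := mcr_superadd (G.induce (core (mad G) G)) hk le_rfl
    rw [mcr_one] at h1
    linarith
  apply le_antisymm
  · apply general' G (mad G) (core (mad G) G) (core_max (mad G) G)
      (fun k => mcr (G.induce (core (mad G) G)) k) _ hr _ _
    · show mad G ≤ mcr (G.induce (core (mad G) G)) 1
      rw [mcr_one]
      exact hm
    · intro k hk _
      exact hstep k hk
    · intro k _ _
      exact le_rfl
  · exact mcr_mono _ _ Subtype.val Subtype.val_injective (fun a b h => h) hr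

lemma mad_top_le' (N : ℕ) : mad (⊤ : SimpleGraph (Fin (N + 1))) ≤ N := by
  classical
  rw [mad_le_iff _ (by positivity)]
  intro s
  have hs : s.card ≤ N + 1 := by simpa using Finset.card_le_univ s
  have h1 : ∀ u ∈ s, ∑ v ∈ s, (if (⊤ : SimpleGraph (Fin (N + 1))).Adj u v then (1 : ℝ) else 0)
      ≤ N := by
    intro u hu
    rw [← Finset.add_sum_erase s _ hu]
    have h2 : ∑ v ∈ s.erase u, (if (⊤ : SimpleGraph (Fin (N + 1))).Adj u v then (1 : ℝ) else 0)
        ≤ ∑ v ∈ s.erase u, (1 : ℝ) := by
      apply Finset.sum_le_sum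
      intro v _
      split_ifs <;> norm_num
    have h3 : (((s.erase u).card : ℕ) : ℝ) ≤ N := by
      have : (s.erase u).card ≤ N := by
        rw [Finset.card_erase_of_mem hu]; omega
      exact_mod_cast this
    simp only [SimpleGraph.irrefl, if_false, zero_add]
    refine h2.trans ?_
    simpa using h3
  have h4 : ∑ u ∈ s, ∑ v ∈ s, (if (⊤ : SimpleGraph (Fin (N + 1))).Adj u v then (1 : ℝ) else 0)
      ≤ N * s.card := by
    refine (Finset.sum_le_sum h1).trans ?_
    rw [Finset.sum_const, nsmul_eq_mul, mul_comm]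
  unfold E2
  convert h4

/-- Small components. -/
lemma mcr_small {W : Type} [Finite W] (K : SimpleGraph W) (t : ℕ)
    (hC : ∀ C : K.ConnectedComponent, C.supp.ncard ≤ t + 1) {r : ℕ} (hr : 1 ≤ r) :
    mcr K r ≤ r * t := by
  classical
  have := Fintype.ofFinite W
  have hfinC : Finite K.ConnectedComponent := inferInstance
  set n := Nat.card K.ConnectedComponent with hn
  let Q : SimpleGraph (Fin (r * t + 1)) := ⊤
  have hmad : mad (copies (Fin (r * n)) Q) ≤ r * t := by
    rw [mad_le_iff _ (by positivity)]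
    intro s
    refine (E2_copies Q s).trans ?_
    have := mad_top_le' (r * t)
    push_cast at this
    exact mul_le_mul_of_nonneg_right this (by positivity)
  refine le_trans (mcr_le (copies (Fin (r * n)) Q) K r ?_) hmad
  intro c
  have : Nonempty (Fin r) := ⟨⟨0, hr⟩⟩
  -- inside every copy some colour is used often
  have h1 : ∀ l : Fin (r * n), ∃ i : Fin r,
      t + 1 ≤ (univ.filter (fun y : Fin (r * t + 1) => c (l, y) = i)).card := by
    intro l
    obtain ⟨i, hi⟩ := Fintype.exists_lt_card_fiber_of_mul_lt_card (fun y => c (l, y))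
      (n := t) (by simp)
    exact ⟨i, hi⟩
  choose κ hκ using h1
  obtain ⟨i, hi⟩ := Fintype.exists_le_card_fiber_of_mul_le_card κ (n := n) (by simp)
  have h2 : Nonempty (K.ConnectedComponent ↪ {l : Fin (r * n) // κ l = i}) := by
    have := Fintype.ofFinite K.ConnectedComponent
    apply Function.Embedding.nonempty_of_card_le
    rw [Fintype.card_subtype, ← Nat.card_eq_fintype_card]
    exact hi
  obtain ⟨g⟩ := h2
  have h3 : ∀ C : K.ConnectedComponent,
      Nonempty (C.supp ↪ {y : Fin (r * t + 1) // c ((g C).1, y) = i}) := by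
    intro C
    apply Function.Embedding.nonempty_of_card_le
    rw [← Nat.card_eq_fintype_card, ← Nat.card_eq_fintype_card, Nat.card_coe_set_eq]
    refine (hC C).trans ?_
    have := hκ (g C).1
    rw [(g C).2] at this
    rwa [Nat.card_eq_fintype_card, Fintype.card_subtype]
  let e : ∀ C : K.ConnectedComponent, C.supp ↪ {y : Fin (r * t + 1) // c ((g C).1, y) = i} :=
    fun C => (h3 C).some
  have hmem : ∀ w : W, w ∈ (K.connectedComponentMk w).supp := fun w => rfl
  refine ⟨i, fun w => ((g (K.connectedComponentMk w)).1,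
    (e (K.connectedComponentMk w) ⟨w, hmem w⟩).1), ?_, ?_, ?_⟩
  · intro a b hab
    have e1 : K.connectedComponentMk a = K.connectedComponentMk b :=
      g.injective (Subtype.ext (congrArg Prod.fst hab))
    have e2 : ∀ (C : K.ConnectedComponent) (ha : a ∈ C.supp) (hb : b ∈ C.supp),
        (e C ⟨a, ha⟩).1 = (e C ⟨b, hb⟩).1 → a = b := by
      intro C ha hb h
      exact congrArg Subtype.val ((e C).injective (Subtype.ext h))
    have e3 : ∀ (C C' : K.ConnectedComponent) (hCC : C = C') (ha : a ∈ C.supp) (hb : b ∈ C'.supp),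
        (e C ⟨a, ha⟩).1 = (e C' ⟨b, hb⟩).1 → a = b := by
      rintro C _ rfl ha hb h
      exact e2 C ha hb h
    exact e3 _ _ e1 _ _ (congrArg Prod.snd hab)
  · intro a b hab
    have e1 : K.connectedComponentMk a = K.connectedComponentMk b :=
      SimpleGraph.ConnectedComponent.sound hab.reachable
    refine ⟨by show (g (K.connectedComponentMk a)).1 = (g (K.connectedComponentMk b)).1; rw [e1], ?_⟩
    have e3 : ∀ (C C' : K.ConnectedComponent) (hCC : C = C') (ha : a ∈ C.supp) (hb : b ∈ C'.supp),
        (e C ⟨a, ha⟩).1 = (e C' ⟨b, hb⟩).1 → a = b := by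
      rintro C _ rfl ha hb h
      exact congrArg Subtype.val ((e C).injective (Subtype.ext h))
    intro h
    exact hab.ne (e3 _ _ e1 _ _ h)
  · intro a
    exact (e (K.connectedComponentMk a) ⟨a, hmem a⟩).2

/-- **Part 3.** -/
theorem mcr_le_comp (x : ℝ) (hx : 0 ≤ x) {W : Type} [Finite W] (G : SimpleGraph W) {r : ℕ}
    (hr : 1 ≤ r)
    (hC : ∀ C : (G.induce (core x G)).ConnectedComponent, (C.supp.ncard : ℝ) ≤ x + 1) :
    mcr G r ≤ r * x := by
  have hfl : (⌊x⌋₊ : ℝ) ≤ x := Nat.floor_le hx
  have hk : ∀ k : ℕ, 1 ≤ k → mcr (G.induce (core x G)) k ≤ k * x := by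
    intro k hk
    refine (mcr_small (G.induce (core x G)) ⌊x⌋₊ (fun C => ?_) hk).trans ?_
    · have h2 := hC C
      have h3 : ((C.supp.ncard : ℝ) - 1) ≤ x := by linarith
      rcases Nat.eq_zero_or_pos C.supp.ncard with h0 | hpos
      · omega
      · have h4 : ((C.supp.ncard - 1 : ℕ) : ℝ) ≤ x := by
          rw [Nat.cast_sub hpos]; simpa using h3
        have h5 := Nat.le_floor h4
        omega
    · exact mul_le_mul_of_nonneg_left hfl (by positivity)
  have hmad : mad G ≤ x := by
    by_contra hlt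
    push Not at hlt
    have h1 := mad_core G hlt.le
    have h2 := hk 1 le_rfl
    rw [mcr_one] at h2
    push_cast at h2
    linarith
  apply mcr_le_core x G hr
  · linarith
  · intro k hk1 hkr
    have := hk k hk1
    linarith

theorem mcr_exact {W : Type} [Finite W] (G : SimpleGraph W) {r : ℕ} (hr : 1 ≤ r)
    (hC : ∀ C : (G.induce (core (mad G) G)).ConnectedComponent,
      (C.supp.ncard : ℝ) ≤ mad G + 1) :
    mcr G r = r * mad G :=
  le_antisymm (mcr_le_comp (mad G) (mad_nonneg G) G hr hC) (mcr_lower G hr)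

end Pool.Agent.H68.CR
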