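import Mathlib

set_option autoImplicit false

namespace Pool.Agent.H68.Anti

open MeasureTheory Set Filter Topology
open scoped ENNReal NNReal

/-! ### A set of reals carrying an atomless measure, with no zero sums -/

theorem not_int_aux (B c : ℝ) (n : ℕ) (hn' : (1 : ℝ) ≤ n) (hBn : B = 2 * n + 2) (hc : c = B⁻¹)
    (D : ℕ → ℕ) (h1 : ∀ k, 1 ≤ D k) (h2 : ∀ k, D k ≤ 2 * n) (Q : ℕ) :
    0 < B ^ Q * ∑' k, (D (k + (Q + 1)) : ℝ) * c ^ (k + (Q + 1)) ∧
    B ^ Q * ∑' k, (D (k + (Q + 1)) : ℝ) * c ^ (k + (Q + 1)) < 1 ∧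
    B ^ Q * ∑' k, (D k : ℝ) * c ^ k = B ^ Q * ∑ k ∈ Finset.range (Q + 1), (D k : ℝ) * c ^ k
      + B ^ Q * ∑' k, (D (k + (Q + 1)) : ℝ) * c ^ (k + (Q + 1)) := by
  have hB4 : (4 : ℝ) ≤ B := by rw [hBn]; linarith
  have hB0 : (0 : ℝ) < B := by linarith
  have hc0 : 0 < c := by rw [hc]; positivity
  have hc1 : c < 1 := by rw [hc]; exact inv_lt_one_of_one_lt₀ (by linarith)
  have hsg : Summable (fun k : ℕ => (2 * n : ℝ) * c ^ k) :=
    (summable_geometric_of_lt_one hc0.le hc1).mul_left _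
  have hs : Summable (fun k : ℕ => (D k : ℝ) * c ^ k) := by
    apply Summable.of_nonneg_of_le _ _ hsg
    · intro k; positivity
    · intro k
      apply mul_le_mul_of_nonneg_right _ (by positivity)
      exact_mod_cast h2 k
  have hs2 : Summable (fun k : ℕ => (D (k + (Q + 1)) : ℝ) * c ^ (k + (Q + 1))) :=
    (summable_nat_add_iff (f := fun k : ℕ => (D k : ℝ) * c ^ k) (Q + 1)).2 hs
  refine ⟨?_, ?_, ?_⟩
  · apply mul_pos (by positivity)
    apply hs2.tsum_pos (fun k => by positivity) 0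
    have := h1 (0 + (Q + 1))
    have h' : (0 : ℝ) < D (0 + (Q + 1)) := by exact_mod_cast this
    positivity
  · have hle : ∑' k, (D (k + (Q + 1)) : ℝ) * c ^ (k + (Q + 1))
        ≤ ∑' k : ℕ, (2 * n * c ^ (Q + 1)) * c ^ k := by
      apply Summable.tsum_le_tsum _ hs2 ((summable_geometric_of_lt_one hc0.le hc1).mul_left _)
      intro k
      have : (D (k + (Q + 1)) : ℝ) ≤ 2 * n := by exact_mod_cast h2 (k + (Q + 1))
      calc (D (k + (Q + 1)) : ℝ) * c ^ (k + (Q + 1)) ≤ (2 * n) * c ^ (k + (Q + 1)) :=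
            mul_le_mul_of_nonneg_right this (by positivity)
        _ = (2 * n * c ^ (Q + 1)) * c ^ k := by rw [pow_add]; ring
    have hgeo : ∑' k : ℕ, (2 * n * c ^ (Q + 1)) * c ^ k = 2 * n * c ^ (Q + 1) * (1 - c)⁻¹ := by
      rw [tsum_mul_left, tsum_geometric_of_lt_one hc0.le hc1]
    rw [hgeo] at hle
    have hcalc : B ^ Q * (2 * n * c ^ (Q + 1) * (1 - c)⁻¹) < 1 := by
      have e1 : B ^ Q * c ^ (Q + 1) = c := by
        rw [pow_succ, ← mul_assoc, ← mul_pow, hc, mul_inv_cancel₀ hB0.ne', one_pow, one_mul]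
      have e2 : B ^ Q * (2 * n * c ^ (Q + 1) * (1 - c)⁻¹)
          = 2 * n * (B ^ Q * c ^ (Q + 1)) * (1 - c)⁻¹ := by
        ring
      rw [e2, e1]
      have h1c : 0 < 1 - c := by linarith
      rw [← div_eq_mul_inv, div_lt_one h1c]
      have hcB : c * B = 1 := by rw [hc]; exact inv_mul_cancel₀ hB0.ne'
      rw [hBn] at hcB
      linarith
    exact lt_of_le_of_lt (mul_le_mul_of_nonneg_left hle (by positivity)) hcalc
  · rw [← hs.sum_add_tsum_nat_add (Q + 1), mul_add]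

theorem not_int (B c : ℝ) (n : ℕ) (hn : 1 ≤ n) (hBn : B = 2 * n + 2) (hc : c = B⁻¹)
    (D : ℕ → ℕ) (h1 : ∀ k, 1 ≤ D k) (h2 : ∀ k, D k ≤ 2 * n) (Q : ℕ) (z : ℤ) :
    B ^ Q * ∑' k, (D k : ℝ) * c ^ k ≠ z := by
  have hn' : (1 : ℝ) ≤ n := by exact_mod_cast hn
  obtain ⟨a1, a2, a3⟩ := not_int_aux B c n hn' hBn hc D h1 h2 Q
  have hB0 : (0 : ℝ) < B := by rw [hBn]; positivity
  rw [a3]
  have hint : B ^ Q * ∑ k ∈ Finset.range (Q + 1), (D k : ℝ) * c ^ k
      = ((∑ k ∈ Finset.range (Q + 1), (D k : ℤ) * ((2 * n + 2 : ℤ)) ^ (Q - k) : ℤ) : ℝ) := by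
    push_cast
    rw [Finset.mul_sum]
    apply Finset.sum_congr rfl
    intro k hk
    have hk' : k ≤ Q := Nat.lt_succ_iff.1 (Finset.mem_range.1 hk)
    rw [← hBn, hc, inv_pow]
    have e : B ^ Q = B ^ (Q - k) * B ^ k := by rw [← pow_add]; congr 1; omega
    rw [e]
    field_simp
  rw [hint]
  generalize (∑ k ∈ Finset.range (Q + 1), (D k : ℤ) * ((2 * n + 2 : ℤ)) ^ (Q - k)) = y
  generalize B ^ Q * ∑' k, (D (k + (Q + 1)) : ℝ) * c ^ (k + (Q + 1)) = τ at a1 a2
  intro hz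
  have hd : τ = ((z - y : ℤ) : ℝ) := by push_cast; linarith
  rw [hd] at a1 a2
  have h3 : 0 < z - y := by exact_mod_cast a1
  have h4 : z - y < 1 := by exact_mod_cast a2
  omega

/-- digits `1` or `2` -/
def dg (b : Bool) : ℕ := cond b 2 1

theorem dg_ge (b : Bool) : 1 ≤ dg b := by cases b <;> simp [dg]
theorem dg_le (b : Bool) : dg b ≤ 2 := by cases b <;> simp [dg]

/-- the embedding of the Cantor space in the reals, base `2 n + 2`, digits `1, 2` -/
noncomputable def kap (n : ℕ) (d : ℕ → Bool) : ℝ :=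
  ∑' k, (dg (d k) : ℝ) * (((2 * n + 2 : ℕ) : ℝ)⁻¹) ^ k

theorem base_inv (n : ℕ) (hn : 1 ≤ n) : 0 < (((2 * n + 2 : ℕ) : ℝ)⁻¹) ∧
    (((2 * n + 2 : ℕ) : ℝ)⁻¹) < 1 / 2 := by
  have hn' : (1 : ℝ) ≤ n := by exact_mod_cast hn
  constructor
  · positivity
  · push_cast
    rw [inv_lt_comm₀ (by positivity) (by norm_num)]
    norm_num
    linarith

theorem kap_summable (n : ℕ) (hn : 1 ≤ n) (d : ℕ → Bool) :
    Summable (fun k => (dg (d k) : ℝ) * (((2 * n + 2 : ℕ) : ℝ)⁻¹) ^ k) := by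
  obtain ⟨h0, h1⟩ := base_inv n hn
  apply Summable.of_nonneg_of_le (fun k => by positivity) _
    ((summable_geometric_of_lt_one h0.le (by linarith)).mul_left 2)
  intro k
  apply mul_le_mul_of_nonneg_right _ (by positivity)
  exact_mod_cast dg_le _

theorem kap_continuous (n : ℕ) (hn : 1 ≤ n) : Continuous (kap n) := by
  obtain ⟨h0, h1⟩ := base_inv n hn
  apply continuous_tsum (u := fun k => 2 * (((2 * n + 2 : ℕ) : ℝ)⁻¹) ^ k)
  · intro k
    apply Continuous.mul _ continuous_const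
    have : Continuous (fun b : Bool => (dg b : ℝ)) := continuous_of_discreteTopology
    exact this.comp (continuous_apply k)
  · exact (summable_geometric_of_lt_one h0.le (by linarith)).mul_left 2
  · intro k d
    rw [Real.norm_of_nonneg (by positivity)]
    apply mul_le_mul_of_nonneg_right _ (by positivity)
    exact_mod_cast dg_le _

theorem kap_injective (n : ℕ) (hn : 1 ≤ n) : Function.Injective (kap n) := by
  obtain ⟨h0, h1⟩ := base_inv n hn
  have hk : ∀ d, kap n d = Cardinal.cantorFunction (((2 * n + 2 : ℕ) : ℝ)⁻¹) d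
      + ∑' k : ℕ, (((2 * n + 2 : ℕ) : ℝ)⁻¹) ^ k := by
    intro d
    rw [kap, Cardinal.cantorFunction, ← Summable.tsum_add
      (Cardinal.summable_cantor_function d h0.le (by linarith))
      (summable_geometric_of_lt_one h0.le (by linarith))]
    apply tsum_congr
    intro k
    cases h : d k
    · simp [Cardinal.cantorFunctionAux, h, dg]
    · simp [Cardinal.cantorFunctionAux, h, dg]
      ring
  intro d d' h
  rw [hk, hk] at h
  exact Cardinal.cantorFunction_injective h0 h1 (add_right_cancel h)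

/-- the translations: rationals with denominator a power of `2 n + 2` -/
noncomputable def rr (n : ℕ) (k : ℕ) : ℝ :=
  ((Denumerable.ofNat (ℤ × ℕ) k).1 : ℝ) / ((2 * n + 2 : ℕ) : ℝ) ^ (Denumerable.ofNat (ℤ × ℕ) k).2

/-- the carrier -/
def carrier (n : ℕ) : Set ℝ := {t | ∃ k d, t = kap n d + rr n k}

theorem carrier_measurable (n : ℕ) (hn : 1 ≤ n) : MeasurableSet (carrier n) := by
  have : carrier n = ⋃ k, range (fun d => kap n d + rr n k) := by
    ext t
    simp only [carrier, mem_ofPred_eq, mem_iUnion, mem_range]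
    constructor
    · rintro ⟨k, d, h⟩; exact ⟨k, d, h.symm⟩
    · rintro ⟨k, d, h⟩; exact ⟨k, d, h.symm⟩
  rw [this]
  apply MeasurableSet.iUnion
  intro k
  exact (isCompact_range ((kap_continuous n hn).add continuous_const)).measurableSet

theorem carrier_sum (n : ℕ) (hn : 1 ≤ n) (t : Fin n → ℝ) (ht : ∀ i, t i ∈ carrier n) :
    ∑ i, t i ≠ 0 := by
  choose k d h using ht
  intro h0
  set B : ℝ := ((2 * n + 2 : ℕ) : ℝ) with hB
  have hB0 : (0 : ℝ) < B := by rw [hB]; positivity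
  set q : Fin n → ℕ := fun i => (Denumerable.ofNat (ℤ × ℕ) (k i)).2 with hq
  set p : Fin n → ℤ := fun i => (Denumerable.ofNat (ℤ × ℕ) (k i)).1 with hp
  set Q : ℕ := ∑ i, q i with hQ
  have hqQ : ∀ i, q i ≤ Q := fun i => Finset.single_le_sum (fun _ _ => Nat.zero_le _) (Finset.mem_univ i)
  have hsum : ∑ i, kap n (d i) = ∑' m, ((∑ i, dg (d i m) : ℕ) : ℝ) * (B⁻¹) ^ m := by
    simp only [kap]
    rw [← Summable.tsum_finsetSum (fun i _ => kap_summable n hn (d i))]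
    apply tsum_congr
    intro m
    rw [Nat.cast_sum, Finset.sum_mul]
  have hz : B ^ Q * ∑ i, kap n (d i) = ((-∑ i, p i * ((2 * n + 2 : ℕ) : ℤ) ^ (Q - q i) : ℤ) : ℝ) := by
    have e : ∑ i, kap n (d i) = - ∑ i, (p i : ℝ) / B ^ (q i) := by
      have : ∑ i, t i = ∑ i, kap n (d i) + ∑ i, (p i : ℝ) / B ^ (q i) := by
        rw [← Finset.sum_add_distrib]
        apply Finset.sum_congr rfl
        intro i _
        rw [h i]
        rfl
      linarith
    rw [e]
    push_cast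
    rw [mul_neg, Finset.mul_sum]
    congr 1
    apply Finset.sum_congr rfl
    intro i _
    have e1 : (2 * (n : ℝ) + 2) = B := by rw [hB]; push_cast; ring
    have e2 : B ^ Q = B ^ (Q - q i) * B ^ (q i) := by
      rw [← pow_add]; congr 1; have := hqQ i; omega
    rw [e1, e2]
    field_simp
  rw [hsum] at hz
  refine not_int B B⁻¹ n hn (by rw [hB]; push_cast; ring) rfl (fun m => ∑ i, dg (d i m)) ?_ ?_ Q _ hz
  · intro m
    calc 1 ≤ n := hn
      _ = ∑ _i : Fin n, 1 := by simp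
      _ ≤ ∑ i, dg (d i m) := Finset.sum_le_sum fun i _ => dg_ge _
  · intro m
    calc ∑ i, dg (d i m) ≤ ∑ _i : Fin n, 2 := Finset.sum_le_sum fun i _ => dg_le _
      _ = 2 * n := by simp [mul_comm]

theorem rr_dense (n : ℕ) (hn : 1 ≤ n) (y ε : ℝ) (hε : 0 < ε) : ∃ k, |rr n k - y| < ε := by
  obtain ⟨h0, h1⟩ := base_inv n hn
  set B : ℝ := ((2 * n + 2 : ℕ) : ℝ) with hB
  have hB0 : (0 : ℝ) < B := by rw [hB]; positivity
  obtain ⟨q, hq⟩ := exists_pow_lt_of_lt_one hε (by linarith : B⁻¹ < 1)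
  refine ⟨Encodable.encode ((⌊y * B ^ q⌋ : ℤ), q), ?_⟩
  rw [rr, Denumerable.ofNat_encode]
  simp only
  have hBq : 0 < B ^ q := by positivity
  have a1 := Int.floor_le (y * B ^ q)
  have a2 := Int.lt_floor_add_one (y * B ^ q)
  have e : (⌊y * B ^ q⌋ : ℝ) / B ^ q - y = ((⌊y * B ^ q⌋ : ℝ) - y * B ^ q) * (B⁻¹) ^ q := by
    rw [inv_pow]
    field_simp
  rw [← hB, e, abs_mul, abs_of_nonneg (by positivity : (0 : ℝ) ≤ (B⁻¹) ^ q)]
  have : |(⌊y * B ^ q⌋ : ℝ) - y * B ^ q| ≤ 1 := by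
    rw [abs_le]; constructor <;> linarith
  calc |(⌊y * B ^ q⌋ : ℝ) - y * B ^ q| * (B⁻¹) ^ q ≤ 1 * (B⁻¹) ^ q :=
        mul_le_mul_of_nonneg_right this (by positivity)
    _ < ε := by simpa using hq

end Pool.Agent.H68.Anti
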