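import Mathlib
import Pool.Agent.H68.AntichainG

set_option autoImplicit false

namespace Pool.Agent.H68.Anti

open MeasureTheory Set Filter Topology
open scoped ENNReal NNReal

/-- a Borel isomorphism of the line with the Cantor space -/
noncomputable def eqv : ℝ ≃ᵐ (ℕ → Bool) :=
  PolishSpace.measurableEquivNatBoolOfNotCountable
    (by rw [← Set.countable_univ_iff]; exact Cardinal.not_countable_real)

/-- an injective Borel map into the reals with values in the Cantor set -/
noncomputable def theta (n : ℕ) (x : ℝ) : ℝ := kap n (eqv x)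

theorem theta_measurable (n : ℕ) (hn : 1 ≤ n) : Measurable (theta n) :=
  (kap_continuous n hn).measurable.comp eqv.measurable

theorem theta_injective (n : ℕ) (hn : 1 ≤ n) : Function.Injective (theta n) :=
  (kap_injective n hn).comp eqv.injective

/-- the basic atomless measure -/
noncomputable def nu0 (n : ℕ) : Measure ℝ := Measure.map (theta n) (volume.restrict (Ico 0 1))

/-- the mixture of its translates -/
noncomputable def nu (n : ℕ) : Measure ℝ :=
  Measure.sum (fun k : ℕ => ((2 : ℝ≥0∞)⁻¹) ^ (k + 1) •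
    Measure.map (fun x => theta n x + rr n k) (volume.restrict (Ico 0 1)))

theorem nu_apply (n : ℕ) (hn : 1 ≤ n) {A : Set ℝ} (hA : MeasurableSet A) :
    nu n A = ∑' k, ((2 : ℝ≥0∞)⁻¹) ^ (k + 1) *
      (volume.restrict (Ico (0 : ℝ) 1)) ((fun x => theta n x + rr n k) ⁻¹' A) := by
  rw [nu, Measure.sum_apply _ hA]
  apply tsum_congr
  intro k
  rw [Measure.smul_apply, Measure.map_apply ((theta_measurable n hn).add_const _) hA, smul_eq_mul]

theorem nu_prob (n : ℕ) (hn : 1 ≤ n) : IsProbabilityMeasure (nu n) := by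
  constructor
  rw [nu_apply n hn MeasurableSet.univ]
  simp only [preimage_univ, Measure.restrict_apply_univ, Real.volume_Ico, sub_zero,
    ENNReal.ofReal_one, mul_one]
  rw [ENNReal.tsum_geometric_add_one, ENNReal.one_sub_inv_two, inv_inv]
  exact ENNReal.inv_mul_cancel (by norm_num) (by norm_num)

theorem nu_singleton (n : ℕ) (hn : 1 ≤ n) (t : ℝ) : nu n {t} = 0 := by
  rw [nu_apply n hn (measurableSet_singleton t), ENNReal.tsum_eq_zero]
  intro k
  have hs : ((fun x => theta n x + rr n k) ⁻¹' {t}).Subsingleton := by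
    intro x hx y hy
    simp only [mem_preimage, mem_singleton_iff] at hx hy
    apply theta_injective n hn
    linarith
  rw [hs.measure_zero, mul_zero]

theorem nu_carrier (n : ℕ) (hn : 1 ≤ n) : nu n (carrier n)ᶜ = 0 := by
  rw [nu_apply n hn (carrier_measurable n hn).compl, ENNReal.tsum_eq_zero]
  intro k
  have hs : (fun x => theta n x + rr n k) ⁻¹' (carrier n)ᶜ = ∅ := by
    ext x
    simp only [mem_preimage, mem_compl_iff, mem_empty_iff_false, iff_false, not_not]
    exact ⟨k, eqv x, rfl⟩
  rw [hs, measure_empty, mul_zero]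

theorem nu_Ioo_pos (n : ℕ) (hn : 1 ≤ n) (a b : ℝ) (hab : a < b) : 0 < nu n (Ioo a b) := by
  have hmeas := theta_measurable n hn
  have h0 : nu0 n univ ≠ 0 := by
    rw [nu0, Measure.map_apply hmeas MeasurableSet.univ]
    simp
  obtain ⟨s0, -, hs0⟩ := exists_mem_forall_mem_nhdsWithin_pos_measure h0
  have hε : 0 < (b - a) / 4 := by linarith
  have h1 := hs0 (Ioo (s0 - (b - a) / 4) (s0 + (b - a) / 4)) (by
    rw [nhdsWithin_univ]
    exact Ioo_mem_nhds (by linarith) (by linarith))
  obtain ⟨k, hk⟩ := rr_dense n hn ((a + b) / 2 - s0) ((b - a) / 4) hε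
  rw [nu_apply n hn measurableSet_Ioo]
  rw [nu0, Measure.map_apply hmeas measurableSet_Ioo] at h1
  have hsub : theta n ⁻¹' (Ioo (s0 - (b - a) / 4) (s0 + (b - a) / 4)) ⊆
      (fun x => theta n x + rr n k) ⁻¹' (Ioo a b) := by
    intro x hx
    simp only [mem_preimage, mem_Ioo] at hx ⊢
    rw [abs_lt] at hk
    constructor <;> linarith [hx.1, hx.2, hk.1, hk.2]
  have h2 : 0 < ((2 : ℝ≥0∞)⁻¹) ^ (k + 1) *
      (volume.restrict (Ico (0 : ℝ) 1)) ((fun x => theta n x + rr n k) ⁻¹' (Ioo a b)) := by
    apply ENNReal.mul_pos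
    · apply pow_ne_zero
      simp
    · exact (lt_of_lt_of_le h1 (measure_mono hsub)).ne'
  exact lt_of_lt_of_le h2 (ENNReal.le_tsum k)

/-- The function `G`, its set of typical parameters `N`. -/
theorem exists_G (n : ℕ) (hn : 1 ≤ n) : ∃ (G : ℝ → ℝ) (N : Set ℝ), StrictMono G ∧ Continuous G ∧
    (∀ t, 0 < G t ∧ G t < 1) ∧ (∀ x, 0 < x → x < 1 → ∃ t, G t = x) ∧ MeasurableSet N ∧
    volume (G '' Nᶜ) = 0 ∧ ∀ t : Fin n → ℝ, (∀ i, t i ∈ N) → ∑ i, t i ≠ 0 := by
  have hp := nu_prob n hn
  set F := ProbabilityTheory.cdf (nu n) with hF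
  have hFm : F.measure = nu n := ProbabilityTheory.measure_cdf (nu n)
  have hmono : StrictMono F := by
    intro a b hab
    have h1 := F.measure_Ioc a b
    rw [hFm] at h1
    have h2 : 0 < nu n (Ioc a b) := lt_of_lt_of_le (nu_Ioo_pos n hn a b hab)
      (measure_mono Ioo_subset_Ioc_self)
    rw [h1, ENNReal.ofReal_pos] at h2
    linarith
  have hcont : Continuous F := by
    rw [continuous_iff_continuousAt]
    intro a
    rw [F.mono.continuousAt_iff_leftLim_eq_rightLim, F.rightLim_eq]
    have h1 := F.measure_singleton a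
    rw [hFm, nu_singleton n hn] at h1
    have h2 := (ENNReal.ofReal_eq_zero).1 h1.symm
    have h3 := F.mono.leftLim_le (le_refl a)
    linarith
  have hbot := ProbabilityTheory.tendsto_cdf_atBot (nu n)
  have htop := ProbabilityTheory.tendsto_cdf_atTop (nu n)
  have hlt : ∀ t, 0 < F t ∧ F t < 1 := by
    intro t
    constructor
    · calc (0 : ℝ) ≤ F (t - 1) := ProbabilityTheory.cdf_nonneg (nu n) _
        _ < F t := hmono (by linarith)
    · calc F t < F (t + 1) := hmono (by linarith)
        _ ≤ 1 := ProbabilityTheory.cdf_le_one (nu n) _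
  refine ⟨F, carrier n, hmono, hcont, hlt, ?_, carrier_measurable n hn, ?_, carrier_sum n hn⟩
  · intro x hx0 hx1
    obtain ⟨a, ha⟩ := (hbot.eventually (gt_mem_nhds hx0)).exists
    obtain ⟨b, hb⟩ := (htop.eventually (lt_mem_nhds hx1)).exists
    have := intermediate_value_univ a b hcont
    exact this ⟨ha.le, hb.le⟩
  · have hemb : MeasurableEmbedding F := hcont.measurableEmbedding hmono.injective
    have hcomap : Measure.comap F volume = nu n := by
      have himg : ∀ a b : ℝ, a < b → volume (F '' Ioc a b) = ENNReal.ofReal (F b - F a) := by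
        intro a b hab
        have : F '' Ioc a b = Ioc (F a) (F b) := by
          ext y
          constructor
          · rintro ⟨x, hx, rfl⟩
            exact ⟨hmono hx.1, hmono.monotone hx.2⟩
          · rintro ⟨hy1, hy2⟩
            obtain ⟨x, hx, rfl⟩ := intermediate_value_Icc hab.le hcont.continuousOn ⟨hy1.le, hy2⟩
            refine ⟨x, ⟨?_, hx.2⟩, rfl⟩
            exact hmono.lt_iff_lt.1 hy1
        rw [this, Real.volume_Ioc]
      apply Measure.ext_of_Ioc'
      · intro a b hab
        rw [hemb.comap_apply, himg a b hab]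
        exact ENNReal.ofReal_ne_top
      · intro a b hab
        rw [hemb.comap_apply, ← hFm, F.measure_Ioc, himg a b hab]
    rw [← hemb.comap_apply, hcomap, nu_carrier n hn]

end Pool.Agent.H68.Anti
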