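import Mathlib

set_option autoImplicit false

namespace Pool.Agent.H68.Anti

open MeasureTheory Set Filter Topology Measure
open scoped ENNReal NNReal

/-- strict antichain property -/
def IsAnti {n : ℕ} (S : Set (EuclideanSpace ℝ (Fin n))) : Prop :=
  ∀ x ∈ S, ∀ y ∈ S, (∀ i, x i ≤ y i) → x = y

section lin

variable {m : ℕ}

/-- derivative of the coordinates of `Phi` when `u` has derivative `L` -/
noncomputable def dco (L : (Fin m → ℝ) →L[ℝ] ℝ) (j : Fin (m + 1)) : (Fin m → ℝ) →L[ℝ] ℝ :=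
  Fin.cases L (fun i => ContinuousLinearMap.proj i + L) j

theorem dco_zero (L : (Fin m → ℝ) →L[ℝ] ℝ) : dco L 0 = L := rfl

theorem dco_succ (L : (Fin m → ℝ) →L[ℝ] ℝ) (i : Fin m) :
    dco L i.succ = ContinuousLinearMap.proj i + L := rfl

theorem dco_inj (L : (Fin m → ℝ) →L[ℝ] ℝ) (v : Fin m → ℝ) (h : ∀ j, dco L j v = 0) : v = 0 := by
  have h0 : L v = 0 := by simpa [dco_zero] using h 0
  ext i
  have := h i.succ
  rw [dco_succ] at this
  simp [h0] at this
  simpa using this

theorem dco_ones (L : (Fin m → ℝ) →L[ℝ] ℝ) (v : Fin m → ℝ) (h : ∀ j, dco L j v = 1) : False := by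
  have h0 : L v = 1 := by simpa [dco_zero] using h 0
  have hv : v = 0 := by
    ext i
    have := h i.succ
    rw [dco_succ] at this
    simp [h0] at this
    simpa using this
  rw [hv] at h0
  simp at h0

/-- `e_i` is in the range of the derivative -/
def HasDir (L : (Fin m → ℝ) →L[ℝ] ℝ) (i : Fin (m + 1)) : Prop :=
  ∃ w : Fin m → ℝ, ∀ j, dco L j w = if j = i then 1 else 0

theorem not_all_dir (L : (Fin m → ℝ) →L[ℝ] ℝ) (h : ∀ i, HasDir L i) : False := by
  choose w hw using h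
  apply dco_ones L (∑ i, w i)
  intro j
  rw [_root_.map_sum]
  simp [hw]

theorem flat_of_dir (L : (Fin m → ℝ) →L[ℝ] ℝ) (j : Fin (m + 1)) (h : ∀ i, i ≠ j → HasDir L i) :
    dco L j = 0 := by
  by_contra hne
  obtain ⟨v, hv⟩ : ∃ v, dco L j v ≠ 0 := by
    by_contra hc
    push Not at hc
    exact hne (ContinuousLinearMap.ext hc)
  apply not_all_dir L
  intro i
  by_cases hij : i = j
  · subst hij
    have h' : ∀ k : Fin (m + 1), ∃ w : Fin m → ℝ, k ≠ i → ∀ j, dco L j w = if j = k then 1 else 0 := by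
      intro k
      by_cases hk : k = i
      · exact ⟨0, fun h => absurd hk h⟩
      · obtain ⟨w, hw⟩ := h k hk
        exact ⟨w, fun _ => hw⟩
    choose w hw using h'
    refine ⟨(dco L i v)⁻¹ • (v - ∑ k ∈ Finset.univ.erase i, (dco L k v) • w k), ?_⟩
    intro j
    rw [map_smul, map_sub, _root_.map_sum]
    have : ∑ k ∈ Finset.univ.erase i, dco L j ((dco L k v) • w k)
        = ∑ k ∈ Finset.univ.erase i, (dco L k v) * (if j = k then 1 else 0) := by
      apply Finset.sum_congr rfl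
      intro k hk
      rw [map_smul, hw k (Finset.ne_of_mem_erase hk) j, smul_eq_mul]
    rw [this]
    by_cases hj : j = i
    · subst hj
      have h0 : ∑ k ∈ Finset.univ.erase j, (dco L k v) * (if j = k then (1 : ℝ) else 0) = 0 := by
        apply Finset.sum_eq_zero
        intro k hk
        have := Finset.ne_of_mem_erase hk
        simp [this.symm]
      rw [h0]
      simp [hv]
    · have h1 : ∑ k ∈ Finset.univ.erase i, (dco L k v) * (if j = k then (1 : ℝ) else 0)
          = dco L j v := by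
        rw [Finset.sum_eq_single j]
        · simp
        · intro b _ hb
          simp [Ne.symm hb]
        · intro hc
          exact absurd (Finset.mem_erase.2 ⟨hj, Finset.mem_univ j⟩) hc
      rw [h1]
      simp [hj]
  · exact h i hij

theorem dir_of_det (L : (Fin m → ℝ) →L[ℝ] ℝ) (i : Fin (m + 1))
    (h : (ContinuousLinearMap.pi (fun k : Fin m => dco L (i.succAbove k))).det = 0) :
    HasDir L i := by
  set T := ContinuousLinearMap.pi (fun k : Fin m => dco L (i.succAbove k)) with hT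
  have hb : (T : (Fin m → ℝ) →ₗ[ℝ] (Fin m → ℝ)).det = 0 := h
  have hk : LinearMap.ker (T : (Fin m → ℝ) →ₗ[ℝ] (Fin m → ℝ)) ≠ ⊥ := by
    intro hk
    have hu := (LinearMap.isUnit_iff_ker_eq_bot _).2 hk
    have := (LinearMap.isUnit_iff_isUnit_det _).1 hu
    rw [hb] at this
    exact not_isUnit_zero this
  obtain ⟨v, hv, hv0⟩ := (Submodule.ne_bot_iff _).1 hk
  have hv' : ∀ k, dco L (i.succAbove k) v = 0 := by
    intro k
    have : T v = 0 := by simpa using hv
    exact congrFun this k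
  have hc : dco L i v ≠ 0 := by
    intro hc
    apply hv0
    apply dco_inj L v
    intro j
    by_cases hj : j = i
    · rw [hj]; exact hc
    · obtain ⟨k, rfl⟩ := Fin.exists_succAbove_eq hj
      exact hv' k
  refine ⟨(dco L i v)⁻¹ • v, ?_⟩
  intro j
  rw [map_smul]
  by_cases hj : j = i
  · subst hj
    simp [hc]
  · obtain ⟨k, rfl⟩ := Fin.exists_succAbove_eq hj
    rw [hv' k]
    simp [hj]

end lin

section geo

variable {m : ℕ}

/-- differences with the zeroth coordinate -/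
def Psi (x : EuclideanSpace ℝ (Fin (m + 1))) : Fin m → ℝ := fun i => x i.succ - x 0

/-- the coordinates other than `i` -/
def Qm (i : Fin (m + 1)) (x : EuclideanSpace ℝ (Fin (m + 1))) : Fin m → ℝ :=
  fun k => x (i.succAbove k)

/-- erase the coordinate `j` -/
noncomputable def Pj (j : Fin (m + 1)) (x : EuclideanSpace ℝ (Fin (m + 1))) :
    EuclideanSpace ℝ (Fin (m + 1)) := WithLp.toLp 2 (Function.update x.ofLp j 0)

/-- the parametrization attached to `u` -/
noncomputable def Phi (u : (Fin m → ℝ) → ℝ) (p : Fin m → ℝ) : EuclideanSpace ℝ (Fin (m + 1)) :=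
  WithLp.toLp 2 (Fin.cases (u p) (fun i => p i + u p))

theorem Phi_zero (u : (Fin m → ℝ) → ℝ) (p : Fin m → ℝ) : Phi u p 0 = u p := rfl
theorem Phi_succ (u : (Fin m → ℝ) → ℝ) (p : Fin m → ℝ) (i : Fin m) :
    Phi u p i.succ = p i + u p := rfl

theorem Psi_continuous : Continuous (Psi (m := m)) := by
  unfold Psi
  fun_prop

theorem coord_le_dist (x y : EuclideanSpace ℝ (Fin (m + 1))) (i : Fin (m + 1)) :
    |x i - y i| ≤ dist x y := by
  rw [EuclideanSpace.dist_eq]
  apply Real.le_sqrt_of_sq_le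
  have := Finset.single_le_sum (f := fun i => dist (x.ofLp i) (y.ofLp i) ^ 2)
    (fun _ _ => sq_nonneg _) (Finset.mem_univ i)
  simpa [Real.dist_eq] using this

theorem psi_bound {S : Set (EuclideanSpace ℝ (Fin (m + 1)))} (hS : IsAnti S)
    {x y : EuclideanSpace ℝ (Fin (m + 1))} (hx : x ∈ S) (hy : y ∈ S) :
    |x 0 - y 0| ≤ dist (Psi x) (Psi y) := by
  have key : ∀ x ∈ S, ∀ y ∈ S, x 0 - y 0 ≤ dist (Psi x) (Psi y) := by
    intro x hx y hy
    by_contra hc
    push Not at hc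
    have hpos : 0 < x 0 - y 0 := lt_of_le_of_lt dist_nonneg hc
    have hle : ∀ i, y i ≤ x i := by
      intro i
      refine Fin.cases ?_ (fun i => ?_) i
      · linarith
      · have h1 := dist_le_pi_dist (Psi x) (Psi y) i
        rw [Real.dist_eq] at h1
        have h2 : |(x i.succ - x 0) - (y i.succ - y 0)| < x 0 - y 0 := lt_of_le_of_lt h1 hc
        rw [abs_lt] at h2
        linarith [h2.1]
    have := hS y hy x hx hle
    rw [this] at hpos
    linarith
  rw [abs_le]
  constructor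
  · have := key y hy x hx
    rw [dist_comm] at this
    linarith
  · exact key x hx y hy

theorem exists_u {S : Set (EuclideanSpace ℝ (Fin (m + 1)))} (hS : IsAnti S) :
    ∃ u : (Fin m → ℝ) → ℝ, LipschitzWith 1 u ∧ ∀ x ∈ S, u (Psi x) = x 0 := by
  classical
  let g : (Fin m → ℝ) → ℝ := fun p => if h : ∃ x ∈ S, Psi x = p then h.choose 0 else 0
  have hg : ∀ x ∈ S, g (Psi x) = x 0 := by
    intro x hx
    have h : ∃ y ∈ S, Psi y = Psi x := ⟨x, hx, rfl⟩
    have h1 : g (Psi x) = h.choose 0 := by simp only [g, dif_pos h]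
    rw [h1]
    obtain ⟨hy, hyx⟩ := h.choose_spec
    have := psi_bound hS hy hx
    rw [hyx, dist_self] at this
    have h2 := abs_nonpos_iff.1 this
    linarith
  have hlip : LipschitzOnWith 1 g (Psi '' S) := by
    apply LipschitzOnWith.of_dist_le_mul
    rintro p ⟨x, hx, rfl⟩ q ⟨y, hy, rfl⟩
    rw [hg x hx, hg y hy, NNReal.coe_one, one_mul, Real.dist_eq]
    exact psi_bound hS hx hy
  obtain ⟨u, hu, hug⟩ := hlip.extend_real
  refine ⟨u, hu, fun x hx => ?_⟩
  rw [← hug ⟨x, hx, rfl⟩, hg x hx]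

variable {S : Set (EuclideanSpace ℝ (Fin (m + 1)))} {u : (Fin m → ℝ) → ℝ}

theorem Phi_Psi (hu : ∀ x ∈ S, u (Psi x) = x 0) {x : EuclideanSpace ℝ (Fin (m + 1))} (hx : x ∈ S) :
    Phi u (Psi x) = x := by
  ext j
  refine Fin.cases ?_ (fun i => ?_) j
  · rw [Phi_zero, hu x hx]
  · rw [Phi_succ, hu x hx, Psi]
    ring

theorem Phi_image (hu : ∀ x ∈ S, u (Psi x) = x 0) {A : Set (EuclideanSpace ℝ (Fin (m + 1)))}
    (hA : A ⊆ S) : Phi u '' (Psi '' A) = A := by
  ext x
  constructor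
  · rintro ⟨_, ⟨y, hy, rfl⟩, rfl⟩
    rw [Phi_Psi hu (hA hy)]
    exact hy
  · intro hx
    exact ⟨Psi x, ⟨x, hx, rfl⟩, Phi_Psi hu (hA hx)⟩

theorem Psi_injOn (hu : ∀ x ∈ S, u (Psi x) = x 0) : InjOn Psi S := by
  intro x hx y hy h
  rw [← Phi_Psi hu hx, ← Phi_Psi hu hy, h]

theorem Phi_lipschitz (hul : LipschitzWith 1 u) : ∃ C, LipschitzWith C (Phi u) := by
  have h : ∀ j, LipschitzWith 2 (fun p => Phi u p j) := by
    intro j
    refine Fin.cases ?_ (fun i => ?_) j
    · exact hul.weaken (by norm_num)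
    · have h1 : LipschitzWith 1 (fun p : Fin m → ℝ => p i) := LipschitzWith.eval i
      have := h1.add hul
      have h2 : (1 : ℝ≥0) + 1 = 2 := by norm_num
      rw [h2] at this
      exact this
  have h2 : LipschitzWith 2 (fun p => (Phi u p).ofLp) := LipschitzWith.of_dist_le_mul (by
    intro p q
    rw [dist_pi_le_iff (by positivity)]
    intro j
    exact (h j).dist_le_mul p q)
  exact ⟨_, (PiLp.lipschitzWith_toLp 2 (fun _ : Fin (m + 1) => ℝ)).comp h2⟩

theorem Phi_continuous (hul : LipschitzWith 1 u) : Continuous (Phi u) := by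
  obtain ⟨C, hC⟩ := Phi_lipschitz hul
  exact hC.continuous

theorem Phi_null (hul : LipschitzWith 1 u) {A : Set (Fin m → ℝ)} (hA : volume A = 0) :
    μH[(m : ℝ)] (Phi u '' A) = 0 := by
  obtain ⟨C, hC⟩ := Phi_lipschitz hul
  have h1 := hC.hausdorffMeasure_image_le (d := (m : ℝ)) (by positivity) A
  have h2 : μH[(m : ℝ)] A = volume A := by
    have := hausdorffMeasure_pi_real (ι := Fin m)
    rw [Fintype.card_fin] at this
    rw [this]
  rw [h2, hA, mul_zero] at h1
  exact nonpos_iff_eq_zero.1 h1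

theorem hasFDerivAt_Phi {p : Fin m → ℝ} (hp : DifferentiableAt ℝ u p) (j : Fin (m + 1)) :
    HasFDerivAt (fun p => Phi u p j) (dco (fderiv ℝ u p) j) p := by
  refine Fin.cases ?_ (fun i => ?_) j
  · exact hp.hasFDerivAt
  · rw [dco_succ]
    have h1 : HasFDerivAt (fun p : Fin m → ℝ => p i)
        (ContinuousLinearMap.proj (R := ℝ) (φ := fun _ : Fin m => ℝ) i) p :=
      (ContinuousLinearMap.proj (R := ℝ) (φ := fun _ : Fin m => ℝ) i).hasFDerivAt
    exact h1.add hp.hasFDerivAt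

theorem Qm_injOn (hS : IsAnti S) (i : Fin (m + 1)) : InjOn (Qm i) S := by
  intro x hx y hy h
  have hk : ∀ k, x (i.succAbove k) = y (i.succAbove k) := fun k => congrFun h k
  rcases le_total (x i) (y i) with hi | hi
  · apply hS x hx y hy
    intro j
    by_cases hj : j = i
    · rw [hj]; exact hi
    · obtain ⟨k, rfl⟩ := Fin.exists_succAbove_eq hj
      exact (hk k).le
  · symm
    apply hS y hy x hx
    intro j
    by_cases hj : j = i
    · rw [hj]; exact hi
    · obtain ⟨k, rfl⟩ := Fin.exists_succAbove_eq hj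
      exact (hk k).ge

/-- If a projection of `A` is null, then the corresponding direction is tangent a.e. -/
theorem ae_dir (hS : IsAnti S) (hul : LipschitzWith 1 u) (hu : ∀ x ∈ S, u (Psi x) = x 0)
    {A : Set (EuclideanSpace ℝ (Fin (m + 1)))} (hA : A ⊆ S) (hAm : MeasurableSet A)
    (i : Fin (m + 1)) (hnull : volume (Qm i '' A) = 0) :
    ∀ᵐ p ∂(volume.restrict (Psi '' A)), DifferentiableAt ℝ u p ∧ HasDir (fderiv ℝ u p) i := by
  have hA' : MeasurableSet (Psi '' A) :=
    hAm.image_of_continuousOn_injOn Psi_continuous.continuousOn ((Psi_injOn hu).mono hA)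
  set D : Set (Fin m → ℝ) := {p | DifferentiableAt ℝ u p} with hD
  have hDm : MeasurableSet D := measurableSet_of_differentiableAt ℝ u
  have hDae : ∀ᵐ p ∂(volume : Measure (Fin m → ℝ)), p ∈ D := hul.ae_differentiableAt
  set A1 := Psi '' A ∩ D with hA1
  have hA1m : MeasurableSet A1 := hA'.inter hDm
  let F : (Fin m → ℝ) → (Fin m → ℝ) := fun p k => Phi u p (i.succAbove k)
  have hF : ∀ p ∈ A1, HasFDerivWithinAt F
      (ContinuousLinearMap.pi (fun k : Fin m => dco (fderiv ℝ u p) (i.succAbove k))) A1 p := by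
    intro p hp
    apply HasFDerivAt.hasFDerivWithinAt
    rw [hasFDerivAt_pi]
    intro k
    exact hasFDerivAt_Phi hp.2 _
  have hinj : InjOn F A1 := by
    rintro _ ⟨⟨x, hx, rfl⟩, _⟩ _ ⟨⟨y, hy, rfl⟩, _⟩ h
    have h1 : Qm i x = Qm i y := by
      ext k
      have := congrFun h k
      simp only [F, Phi_Psi hu (hA hx), Phi_Psi hu (hA hy)] at this
      exact this
    rw [Qm_injOn hS i (hA hx) (hA hy) h1]
  have himg : F '' A1 ⊆ Qm i '' A := by
    rintro _ ⟨_, ⟨⟨x, hx, rfl⟩, _⟩, rfl⟩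
    refine ⟨x, hx, ?_⟩
    ext k
    simp only [F, Phi_Psi hu (hA hx)]
    rfl
  have hint := lintegral_abs_det_fderiv_eq_addHaar_image volume hA1m hF hinj
  rw [measure_mono_null himg hnull, lintegral_eq_zero_iff'
    (aemeasurable_ofReal_abs_det_fderivWithin volume hA1m hF)] at hint
  have h1 : ∀ᵐ p ∂(volume.restrict A1), HasDir (fderiv ℝ u p) i := by
    filter_upwards [hint] with p hp
    apply dir_of_det
    have : ENNReal.ofReal |(ContinuousLinearMap.pi
      (fun k : Fin m => dco (fderiv ℝ u p) (i.succAbove k))).det| = 0 := hp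
    rw [ENNReal.ofReal_eq_zero] at this
    exact abs_nonpos_iff.1 this
  rw [ae_restrict_iff' hA'] 
  rw [ae_restrict_iff' hA1m] at h1
  filter_upwards [h1, hDae] with p hp1 hp2 hp3
  exact ⟨hp2, hp1 ⟨hp3, hp2⟩⟩

/-- All projections null implies null. -/
theorem null_of_proj (hS : IsAnti S) {A : Set (EuclideanSpace ℝ (Fin (m + 1)))} (hA : A ⊆ S)
    (hAm : MeasurableSet A) (hnull : ∀ i : Fin (m + 1), volume (Qm i '' A) = 0) :
    μH[(m : ℝ)] A = 0 := by
  obtain ⟨u, hul, hu⟩ := exists_u hS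
  have hA' : MeasurableSet (Psi '' A) :=
    hAm.image_of_continuousOn_injOn Psi_continuous.continuousOn ((Psi_injOn hu).mono hA)
  have h := ae_all_iff.2 (fun i => ae_dir hS hul hu hA hAm i (hnull i))
  have hz : volume (Psi '' A) = 0 := by
    have : ∀ᵐ p ∂((volume : Measure (Fin m → ℝ)).restrict (Psi '' A)), False := by
      filter_upwards [h] with p hp
      exact not_all_dir _ (fun i => (hp i).2)
    rw [ae_restrict_iff' hA'] at this
    have h2 : {p | ¬ (p ∈ Psi '' A → False)} = Psi '' A := by ext p; simp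
    rw [ae_iff, h2] at this
    exact this
  rw [← Phi_image hu hA]
  exact Phi_null hul hz

theorem Pj_apply (j : Fin (m + 1)) (x : EuclideanSpace ℝ (Fin (m + 1))) (k : Fin (m + 1)) :
    Pj j x k = if k = j then 0 else x k := by
  simp [Pj, Function.update_apply]

theorem dist_sq_Pj (j : Fin (m + 1)) (x y : EuclideanSpace ℝ (Fin (m + 1))) :
    dist x y ^ 2 = dist (Pj j x) (Pj j y) ^ 2 + (x j - y j) ^ 2 := by
  rw [EuclideanSpace.dist_eq, EuclideanSpace.dist_eq, Real.sq_sqrt (by positivity),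
    Real.sq_sqrt (by positivity), ← Finset.add_sum_erase _ _ (Finset.mem_univ j),
    ← Finset.add_sum_erase (a := j) Finset.univ (fun i => dist ((Pj j x).ofLp i) ((Pj j y).ofLp i) ^ 2)
      (Finset.mem_univ j)]
  have h1 : dist ((Pj j x).ofLp j) ((Pj j y).ofLp j) = 0 := by
    rw [Pj_apply, Pj_apply]; simp
  have h2 : ∑ i ∈ Finset.univ.erase j, dist (x.ofLp i) (y.ofLp i) ^ 2
      = ∑ i ∈ Finset.univ.erase j, dist ((Pj j x).ofLp i) ((Pj j y).ofLp i) ^ 2 := by
    apply Finset.sum_congr rfl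
    intro i hi
    have := Finset.ne_of_mem_erase hi
    rw [Pj_apply, Pj_apply]; simp [this]
  rw [h1, h2, Real.dist_eq, sq_abs]
  ring

theorem Pj_dist_le (j : Fin (m + 1)) (x y : EuclideanSpace ℝ (Fin (m + 1))) :
    dist (Pj j x) (Pj j y) ≤ dist x y := by
  have := dist_sq_Pj j x y
  have h2 := sq_nonneg (x j - y j)
  exact (sq_le_sq₀ dist_nonneg dist_nonneg).1 (by linarith)

theorem Pj_lipschitz (j : Fin (m + 1)) : LipschitzWith 1 (Pj j) :=
  LipschitzWith.of_dist_le_mul (by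
    intro x y
    rw [NNReal.coe_one, one_mul]
    exact Pj_dist_le j x y)

theorem Pj_injOn (hS : IsAnti S) (j : Fin (m + 1)) : InjOn (Pj j) S := by
  intro x hx y hy h
  apply Qm_injOn hS j hx hy
  ext k
  have := congrArg (fun z : EuclideanSpace ℝ (Fin (m + 1)) => z (j.succAbove k)) h
  simp only [Pj_apply, Fin.succAbove_ne, if_false] at this
  exact this

/-- the bound on one nearly flat piece -/
theorem piece_bound (hS : IsAnti S)
    {B : Set (EuclideanSpace ℝ (Fin (m + 1)))} (hB : B ⊆ S) (j : Fin (m + 1)) (δ K : ℝ≥0)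
    (hδ : 1 ≤ (K : ℝ) ^ 2 * (1 - 4 * (δ : ℝ) ^ 2))
    (happ : ∀ x ∈ B, ∀ y ∈ B, |x j - y j| ≤ δ * dist (Psi x) (Psi y)) :
    μH[(m : ℝ)] B ≤ (K : ℝ≥0∞) ^ (m : ℝ) * μH[(m : ℝ)] (Pj j '' B) := by
  classical
  have hdist : ∀ x ∈ B, ∀ y ∈ B, dist x y ≤ K * dist (Pj j x) (Pj j y) := by
    intro x hx y hy
    have h1 := happ x hx y hy
    have h2 : dist (Psi x) (Psi y) ≤ 2 * dist x y := by
      rw [dist_pi_le_iff (by positivity)]
      intro i
      rw [Real.dist_eq]
      have a1 := coord_le_dist x y i.succ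
      have a2 := coord_le_dist x y 0
      have e : Psi x i - Psi y i = (x i.succ - y i.succ) - (x 0 - y 0) := by
        simp only [Psi]; ring
      rw [e]
      calc |(x i.succ - y i.succ) - (x 0 - y 0)| ≤ |x i.succ - y i.succ| + |x 0 - y 0| := abs_sub _ _
        _ ≤ 2 * dist x y := by linarith
    have h3 : |x j - y j| ≤ 2 * δ * dist x y := by
      calc |x j - y j| ≤ δ * dist (Psi x) (Psi y) := h1
        _ ≤ δ * (2 * dist x y) := mul_le_mul_of_nonneg_left h2 δ.2
        _ = 2 * δ * dist x y := by ring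
    have h4 : (x j - y j) ^ 2 ≤ 4 * (δ : ℝ) ^ 2 * dist x y ^ 2 := by
      have := pow_le_pow_left₀ (abs_nonneg _) h3 2
      rw [sq_abs] at this
      calc (x j - y j) ^ 2 ≤ (2 * δ * dist x y) ^ 2 := this
        _ = 4 * (δ : ℝ) ^ 2 * dist x y ^ 2 := by ring
    have h5 := dist_sq_Pj j x y
    have h6 : dist x y ^ 2 ≤ (K * dist (Pj j x) (Pj j y)) ^ 2 := by
      have h7 : (1 - 4 * (δ : ℝ) ^ 2) * dist x y ^ 2 ≤ dist (Pj j x) (Pj j y) ^ 2 := by linarith
      calc dist x y ^ 2 = 1 * dist x y ^ 2 := by ring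
        _ ≤ ((K : ℝ) ^ 2 * (1 - 4 * (δ : ℝ) ^ 2)) * dist x y ^ 2 :=
            mul_le_mul_of_nonneg_right hδ (by positivity)
        _ = (K : ℝ) ^ 2 * ((1 - 4 * (δ : ℝ) ^ 2) * dist x y ^ 2) := by ring
        _ ≤ (K : ℝ) ^ 2 * dist (Pj j x) (Pj j y) ^ 2 := mul_le_mul_of_nonneg_left h7 (by positivity)
        _ = (K * dist (Pj j x) (Pj j y)) ^ 2 := by ring
    exact (sq_le_sq₀ dist_nonneg (by positivity)).1 h6
  have hinj : InjOn (Pj j) B := (Pj_injOn hS j).mono hB
  set h := Function.invFunOn (Pj j) B with hh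
  have hinv : ∀ x ∈ B, h (Pj j x) = x := fun x hx => hinj.leftInvOn_invFunOn hx
  have hlip : LipschitzOnWith K h (Pj j '' B) := by
    apply LipschitzOnWith.of_dist_le_mul
    rintro _ ⟨x, hx, rfl⟩ _ ⟨y, hy, rfl⟩
    rw [hinv x hx, hinv y hy]
    exact hdist x hx y hy
  have himg : h '' (Pj j '' B) = B := by
    ext x
    constructor
    · rintro ⟨_, ⟨y, hy, rfl⟩, rfl⟩
      rw [hinv y hy]; exact hy
    · intro hx
      exact ⟨Pj j x, ⟨x, hx, rfl⟩, hinv x hx⟩
  have := hlip.hausdorffMeasure_image_le (d := (m : ℝ)) (by positivity)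
  rwa [himg] at this

/-- The measure of a part with only one non-null projection is at most that of the projection. -/
theorem measure_le_proj (hS : IsAnti S) {A : Set (EuclideanSpace ℝ (Fin (m + 1)))} (hA : A ⊆ S)
    (hAm : MeasurableSet A) (j : Fin (m + 1))
    (hnull : ∀ i : Fin (m + 1), i ≠ j → volume (Qm i '' A) = 0) :
    μH[(m : ℝ)] A ≤ μH[(m : ℝ)] (Pj j '' A) := by
  classical
  obtain ⟨u, hul, hu⟩ := exists_u hS
  have hA' : MeasurableSet (Psi '' A) :=
    hAm.image_of_continuousOn_injOn Psi_continuous.continuousOn ((Psi_injOn hu).mono hA)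
  -- the flat points
  set D : Set (Fin m → ℝ) := {p | DifferentiableAt ℝ u p} with hD
  have hDm : MeasurableSet D := measurableSet_of_differentiableAt ℝ u
  have hDae : ∀ᵐ p ∂(volume : Measure (Fin m → ℝ)), p ∈ D := hul.ae_differentiableAt
  set Z : Set (Fin m → ℝ) := {p | dco (fderiv ℝ u p) j = 0} with hZ
  have hZm : MeasurableSet Z := by
    have hc : Continuous (fun L : (Fin m → ℝ) →L[ℝ] ℝ => dco L j) := by
      refine Fin.cases ?_ (fun i => ?_) j
      · exact continuous_id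
      · simp only [dco_succ]
        fun_prop
    have : Z = (fun p => dco (fderiv ℝ u p) j) ⁻¹' {0} := by
      ext p; simp [hZ]
    rw [this]
    exact (hc.measurable.comp (measurable_fderiv ℝ u)) (measurableSet_singleton 0)
  set A2 := Psi '' A ∩ (D ∩ Z) with hA2
  have hA2m : MeasurableSet A2 := hA'.inter (hDm.inter hZm)
  have hbad : volume (Psi '' A \ A2) = 0 := by
    have h := ae_all_iff.2 (fun i : {i : Fin (m + 1) // i ≠ j} =>
      ae_dir hS hul hu hA hAm i.1 (hnull i.1 i.2))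
    have h1 : ∀ᵐ p ∂((volume : Measure (Fin m → ℝ)).restrict (Psi '' A)), p ∈ Z := by
      filter_upwards [h] with p hp
      exact flat_of_dir _ j (fun i hi => (hp ⟨i, hi⟩).2)
    rw [ae_restrict_iff' hA'] at h1
    have h2 : ∀ᵐ p ∂(volume : Measure (Fin m → ℝ)), p ∈ Psi '' A → p ∈ A2 := by
      filter_upwards [h1, hDae] with p hp1 hp2 hp3
      exact ⟨hp3, hp2, hp1 hp3⟩
    have h3 : Psi '' A \ A2 = {p | ¬ (p ∈ Psi '' A → p ∈ A2)} := by
      ext p
      simp only [Set.mem_sdiff, mem_ofPred_eq, Classical.not_imp]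
    rw [h3]
    exact h2
  have hsplit : μH[(m : ℝ)] A ≤ μH[(m : ℝ)] (Phi u '' A2) := by
    have h1 : A ⊆ Phi u '' A2 ∪ Phi u '' (Psi '' A \ A2) := by
      rw [← image_union]
      intro x hx
      refine ⟨Psi x, ?_, Phi_Psi hu (hA hx)⟩
      by_cases h : Psi x ∈ A2
      · exact Or.inl h
      · exact Or.inr ⟨⟨x, hx, rfl⟩, h⟩
    calc μH[(m : ℝ)] A ≤ μH[(m : ℝ)] (Phi u '' A2 ∪ Phi u '' (Psi '' A \ A2)) := measure_mono h1
      _ ≤ μH[(m : ℝ)] (Phi u '' A2) + μH[(m : ℝ)] (Phi u '' (Psi '' A \ A2)) := measure_union_le _ _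
      _ = μH[(m : ℝ)] (Phi u '' A2) := by rw [Phi_null hul hbad, add_zero]
  have hA2S : Phi u '' A2 ⊆ A := by
    rw [← Phi_image hu hA]
    exact image_mono inter_subset_left
  -- the estimate with a constant
  have hK : ∀ K : ℝ≥0, 1 < K → μH[(m : ℝ)] A ≤ (K : ℝ≥0∞) ^ (m : ℝ) * μH[(m : ℝ)] (Pj j '' A) := by
    intro K hK
    obtain ⟨δ, hδ0, hδ⟩ : ∃ δ : ℝ≥0, δ ≠ 0 ∧ 1 ≤ (K : ℝ) ^ 2 * (1 - 4 * (δ : ℝ) ^ 2) := by
      have hK' : (1 : ℝ) < K := by exact_mod_cast hK
      have hK2 : (1 : ℝ) < (K : ℝ) ^ 2 := by nlinarith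
      have hpos : (0 : ℝ) < (((K : ℝ) ^ 2 - 1) / (4 * (K : ℝ) ^ 2)) := by
        apply div_pos <;> nlinarith
      refine ⟨Real.toNNReal (Real.sqrt (((K : ℝ) ^ 2 - 1) / (4 * (K : ℝ) ^ 2))), ?_, ?_⟩
      · have h1 := Real.sqrt_pos.2 hpos
        exact (Real.toNNReal_pos.2 h1).ne'
      · rw [Real.coe_toNNReal _ (Real.sqrt_nonneg _), Real.sq_sqrt hpos.le]
        have : (K : ℝ) ^ 2 ≠ 0 := by positivity
        have e : (K : ℝ) ^ 2 * (1 - 4 * (((K : ℝ) ^ 2 - 1) / (4 * (K : ℝ) ^ 2))) = 1 := by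
          field_simp
          ring
        rw [e]
    have hder : ∀ p ∈ A2, HasFDerivWithinAt (fun p => Phi u p j)
        ((fun _ => 0 : (Fin m → ℝ) → (Fin m → ℝ) →L[ℝ] ℝ) p) A2 p := by
      intro p hp
      have h1 := hasFDerivAt_Phi (u := u) hp.2.1 j
      have h2 : dco (fderiv ℝ u p) j = 0 := hp.2.2
      rw [h2] at h1
      exact h1.hasFDerivWithinAt
    obtain ⟨t, L, htd, htm, htc, hta, htL⟩ := exists_partition_approximatesLinearOn_of_hasFDerivWithinAt
      (fun p => Phi u p j) A2 (fun _ => 0) hder (fun _ => δ) (fun _ => hδ0)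
    -- pieces
    have hpiece : ∀ n, μH[(m : ℝ)] (Phi u '' (A2 ∩ t n))
        ≤ (K : ℝ≥0∞) ^ (m : ℝ) * μH[(m : ℝ)] (Pj j '' (Phi u '' (A2 ∩ t n))) := by
      intro n
      by_cases hne : A2.Nonempty
      · obtain ⟨y, _, hLn⟩ := htL hne n
        have happ := hta n
        rw [hLn] at happ
        apply piece_bound hS _ j δ K hδ
        · rintro _ ⟨p, hp, rfl⟩ _ ⟨q, hq, rfl⟩
          obtain ⟨x, hx, rfl⟩ := hp.1.1
          obtain ⟨y, hy, rfl⟩ := hq.1.1
          have h1 := happ (Psi x) hp (Psi y) hq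
          simp only [_root_.zero_apply, sub_zero, Real.norm_eq_abs, Phi_Psi hu (hA hx),
            Phi_Psi hu (hA hy)] at h1
          rw [Phi_Psi hu (hA hx), Phi_Psi hu (hA hy), dist_eq_norm]
          exact h1
        · exact (image_mono inter_subset_left).trans (hA2S.trans hA)
      · rw [not_nonempty_iff_eq_empty] at hne
        rw [hne]; simp
    have hcont : Continuous (fun p => Pj j (Phi u p)) :=
      (Pj_lipschitz j).continuous.comp (Phi_continuous hul)
    have hinj : InjOn (fun p => Pj j (Phi u p)) (Psi '' A) := by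
      rintro _ ⟨x, hx, rfl⟩ _ ⟨y, hy, rfl⟩ h
      simp only [Phi_Psi hu (hA hx), Phi_Psi hu (hA hy)] at h
      rw [Pj_injOn hS j (hA hx) (hA hy) h]
    have hm2 : ∀ n, MeasurableSet (Pj j '' (Phi u '' (A2 ∩ t n))) := by
      intro n
      rw [image_image]
      exact (hA2m.inter (htm n)).image_of_continuousOn_injOn hcont.continuousOn
        (hinj.mono (inter_subset_left.trans inter_subset_left))
    have hdisj : Pairwise (Function.onFun Disjoint (fun n => Pj j '' (Phi u '' (A2 ∩ t n)))) := by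
      intro a b hab
      simp only [Function.onFun, image_image]
      rw [Set.disjoint_left]
      rintro _ ⟨p, hp, rfl⟩ ⟨q, hq, hpq⟩
      have := hinj hq.1.1 hp.1.1 hpq
      subst this
      exact Set.disjoint_left.1 (htd hab) hp.2 hq.2
    calc μH[(m : ℝ)] A ≤ μH[(m : ℝ)] (Phi u '' A2) := hsplit
      _ ≤ μH[(m : ℝ)] (⋃ n, Phi u '' (A2 ∩ t n)) := by
          apply measure_mono
          rw [← image_iUnion, ← inter_iUnion]
          apply image_mono
          exact fun p hp => ⟨hp, htc hp⟩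
      _ ≤ ∑' n, μH[(m : ℝ)] (Phi u '' (A2 ∩ t n)) := measure_iUnion_le _
      _ ≤ ∑' n, (K : ℝ≥0∞) ^ (m : ℝ) * μH[(m : ℝ)] (Pj j '' (Phi u '' (A2 ∩ t n))) :=
          ENNReal.tsum_le_tsum hpiece
      _ = (K : ℝ≥0∞) ^ (m : ℝ) * ∑' n, μH[(m : ℝ)] (Pj j '' (Phi u '' (A2 ∩ t n))) :=
          ENNReal.tsum_mul_left
      _ = (K : ℝ≥0∞) ^ (m : ℝ) * μH[(m : ℝ)] (⋃ n, Pj j '' (Phi u '' (A2 ∩ t n))) := by
          rw [measure_iUnion hdisj hm2]
      _ ≤ (K : ℝ≥0∞) ^ (m : ℝ) * μH[(m : ℝ)] (Pj j '' A) := by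
          gcongr
          apply iUnion_subset
          intro n
          apply image_mono
          exact (image_mono inter_subset_left).trans hA2S
  -- let `K` tend to one
  have hlim : Tendsto (fun k : ℕ => (((1 + 1 / ((k : ℝ≥0) + 1) : ℝ≥0) : ℝ≥0∞)) ^ (m : ℝ)
      * μH[(m : ℝ)] (Pj j '' A)) atTop (𝓝 ((1 : ℝ≥0∞) ^ (m : ℝ) * μH[(m : ℝ)] (Pj j '' A))) := by
    apply ENNReal.Tendsto.mul_const
    · apply (ENNReal.continuous_rpow_const.tendsto _).comp
      have : Tendsto (fun k : ℕ => (1 + 1 / ((k : ℝ≥0) + 1) : ℝ≥0)) atTop (𝓝 (1 + 0)) :=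
        tendsto_const_nhds.add (tendsto_one_div_add_atTop_nhds_zero_nat)
      rw [add_zero] at this
      exact ENNReal.tendsto_coe.2 this
    · left
      simp
  rw [ENNReal.one_rpow, one_mul] at hlim
  apply ge_of_tendsto' hlim
  intro k
  apply hK
  have : (0 : ℝ≥0) < 1 / ((k : ℝ≥0) + 1) := by positivity
  exact lt_add_of_pos_right 1 this

end geo

end Pool.Agent.H68.Anti
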