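import Mathlib

set_option autoImplicit false

namespace Pool.Agent.H68

open MeasureTheory Metric Set
open scoped RealInnerProductSpace ENNReal NNReal Real

theorem meas_and {α : Type*} [MeasurableSpace α] {p q : α → Prop}
    (hp : MeasurableSet {x | p x}) (hq : MeasurableSet {x | q x}) :
    MeasurableSet {x | p x ∧ q x} := by
  have : {x | p x ∧ q x} = {x | p x} ∩ {x | q x} := by ext; simp
  rw [this]
  exact hp.inter hq

/-- Euclidean three-space. -/
abbrev E3 : Type := EuclideanSpace ℝ (Fin 3)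

theorem vol_disc (ε : ℝ) (hε : 0 ≤ ε) :
    volume {y : Fin 2 → ℝ | y 0 ^ 2 + y 1 ^ 2 ≤ ε ^ 2} = ENNReal.ofReal (π * ε ^ 2) := by
  have h1 : (@WithLp.ofLp 2 (Fin 2 → ℝ)) ⁻¹' {y : Fin 2 → ℝ | y 0 ^ 2 + y 1 ^ 2 ≤ ε ^ 2}
      = closedBall (0 : EuclideanSpace ℝ (Fin 2)) ε := by
    ext x
    simp only [mem_preimage, mem_ofPred_eq, mem_closedBall, dist_zero_right,
      EuclideanSpace.norm_eq, Fin.sum_univ_two, Real.norm_eq_abs, sq_abs]
    rw [Real.sqrt_le_left hε]
  have hm : MeasurableSet {y : Fin 2 → ℝ | y 0 ^ 2 + y 1 ^ 2 ≤ ε ^ 2} := by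
    apply measurableSet_le <;> fun_prop
  rw [← (PiLp.volume_preserving_ofLp (Fin 2)).measure_preimage hm.nullMeasurableSet, h1,
    EuclideanSpace.volume_closedBall_fin_two, ← ENNReal.ofReal_pow hε,
    ← ENNReal.ofReal_mul (by positivity)]
  congr 1
  ring

theorem vol_cyl (h ε : ℝ) (hh : 0 ≤ h) (hε : 0 ≤ ε) :
    volume {x : E3 | x 0 ^ 2 + x 1 ^ 2 ≤ ε ^ 2 ∧ x 2 ∈ Ico (-h) h}
      = ENNReal.ofReal (π * ε ^ 2 * (2 * h)) := by
  set D : Set (Fin 2 → ℝ) := {y : Fin 2 → ℝ | y 0 ^ 2 + y 1 ^ 2 ≤ ε ^ 2} with hD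
  have hm : MeasurableSet D := by
    apply measurableSet_le <;> fun_prop
  have hp : MeasurableSet (Ico (-h) h ×ˢ D) := measurableSet_Ico.prod hm
  have hmp := (volume_preserving_piFinSuccAbove (fun _ : Fin 3 => ℝ) 2).comp
    (PiLp.volume_preserving_ofLp (Fin 3))
  have hpre : (fun x : E3 => (MeasurableEquiv.piFinSuccAbove (fun _ : Fin 3 => ℝ) 2) x.ofLp) ⁻¹'
      (Ico (-h) h ×ˢ D) = {x : E3 | x 0 ^ 2 + x 1 ^ 2 ≤ ε ^ 2 ∧ x 2 ∈ Ico (-h) h} := by
    ext x
    simp only [mem_preimage, mem_prod, hD, mem_ofPred_eq, MeasurableEquiv.piFinSuccAbove_apply,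
      Fin.insertNthEquiv_symm_apply, Fin.removeNth]
    have e0 : (Fin.succAbove (2 : Fin 3) 0) = 0 := rfl
    have e1 : (Fin.succAbove (2 : Fin 3) 1) = 1 := rfl
    rw [e0, e1]
    exact and_comm
  rw [← hpre]
  have := hmp.measure_preimage hp.nullMeasurableSet
  simp only [Function.comp_def] at this
  rw [this]
  rw [Measure.volume_eq_prod, Measure.prod_prod, Real.volume_Ico, hD, vol_disc ε hε,
    ← ENNReal.ofReal_mul (by linarith)]
  congr 1
  ring

/-- the point `(0,0,z)` -/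
def ez (z : ℝ) : E3 := !₂[0, 0, z]

theorem dist_ez_sq (x : E3) (z : ℝ) : dist x (ez z) ^ 2 = x 0 ^ 2 + x 1 ^ 2 + (x 2 - z) ^ 2 := by
  rw [EuclideanSpace.dist_eq, Real.sq_sqrt (by positivity), Fin.sum_univ_three]
  simp [ez, Real.dist_eq, sq_abs]

theorem dist_ez_le (x : E3) (z ε : ℝ) (hε : 0 ≤ ε) :
    dist x (ez z) ≤ ε ↔ x 0 ^ 2 + x 1 ^ 2 + (x 2 - z) ^ 2 ≤ ε ^ 2 := by
  rw [← dist_ez_sq, sq_le_sq₀ dist_nonneg hε]

/-- The capsule: the points at distance at most `ε` from the segment `[-h,h]` of the third axis. -/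
def capsule (h ε : ℝ) : Set E3 := {x | ∃ z ∈ Icc (-h) h, dist x (ez z) ≤ ε}

theorem capsule_volume (h ε : ℝ) (hh : 0 ≤ h) (hε : 0 ≤ ε) :
    volume (capsule h ε) = ENNReal.ofReal (4 * π / 3 * ε ^ 3 + 2 * π * h * ε ^ 2) := by
  set A : Set E3 := {x : E3 | x 0 ^ 2 + x 1 ^ 2 + (x 2 - (-h)) ^ 2 ≤ ε ^ 2 ∧ x 2 < -h} with hA
  set C : Set E3 := {x : E3 | x 0 ^ 2 + x 1 ^ 2 ≤ ε ^ 2 ∧ x 2 ∈ Ico (-h) h} with hC
  set B : Set E3 := {x : E3 | x 0 ^ 2 + x 1 ^ 2 + (x 2 - h) ^ 2 ≤ ε ^ 2 ∧ h ≤ x 2} with hB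
  have hAm : MeasurableSet A := by
    rw [hA]
    apply meas_and
    · apply measurableSet_le <;> fun_prop
    · apply measurableSet_lt <;> fun_prop
  have hBm : MeasurableSet B := by
    rw [hB]
    apply meas_and
    · apply measurableSet_le <;> fun_prop
    · apply measurableSet_le <;> fun_prop
  have hCm : MeasurableSet C := by
    rw [hC]
    apply meas_and
    · apply measurableSet_le <;> fun_prop
    · exact (by fun_prop : Measurable (fun x : E3 => x 2)) measurableSet_Ico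
  have hdec : capsule h ε = A ∪ (C ∪ B) := by
    ext x
    simp only [capsule, mem_ofPred_eq, mem_union, hA, hB, hC, mem_Icc, mem_Ico, dist_ez_le x _ ε hε]
    constructor
    · rintro ⟨z, ⟨hz1, hz2⟩, hz⟩
      rcases lt_or_ge (x 2) (-h) with h1 | h1
      · left
        refine ⟨?_, h1⟩
        nlinarith
      · right
        rcases lt_or_ge (x 2) h with h2 | h2
        · left
          refine ⟨?_, h1, h2⟩
          nlinarith [sq_nonneg (x 2 - z)]
        · right
          refine ⟨?_, h2⟩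
          nlinarith
    · rintro (⟨h1, h2⟩ | ⟨h1, h2, h3⟩ | ⟨h1, h2⟩)
      · exact ⟨-h, ⟨le_refl _, by linarith⟩, h1⟩
      · exact ⟨x 2, ⟨h2, h3.le⟩, by simpa using h1⟩
      · exact ⟨h, ⟨by linarith, le_refl _⟩, h1⟩
  have hd1 : Disjoint A (C ∪ B) := by
    rw [Set.disjoint_left]
    rintro x ⟨_, hx⟩ (⟨_, hx1, _⟩ | ⟨_, hx1⟩)
    · linarith
    · linarith
  have hd2 : Disjoint C B := by
    rw [Set.disjoint_left]
    rintro x ⟨_, _, hx⟩ ⟨_, hx1⟩
    linarith
  set A0 : Set E3 := {x : E3 | x 0 ^ 2 + x 1 ^ 2 + (x 2) ^ 2 ≤ ε ^ 2 ∧ x 2 < 0} with hA0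
  set B0 : Set E3 := {x : E3 | x 0 ^ 2 + x 1 ^ 2 + (x 2) ^ 2 ≤ ε ^ 2 ∧ 0 ≤ x 2} with hB0
  have hA0m : MeasurableSet A0 := by
    rw [hA0]
    apply meas_and
    · apply measurableSet_le <;> fun_prop
    · apply measurableSet_lt <;> fun_prop
  have hB0m : MeasurableSet B0 := by
    rw [hB0]
    apply meas_and
    · apply measurableSet_le <;> fun_prop
    · apply measurableSet_le <;> fun_prop
  have hAv : volume A = volume A0 := by
    have : A0 = (fun x => x + ez (-h)) ⁻¹' A := by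
      ext x
      simp [hA, hA0, ez]
    rw [this, measure_preimage_add_right]
  have hBv : volume B = volume B0 := by
    have : B0 = (fun x => x + ez h) ⁻¹' B := by
      ext x
      simp [hB, hB0, ez]
    rw [this, measure_preimage_add_right]
  have hsum : volume A0 + volume B0 = ENNReal.ofReal (4 * π / 3 * ε ^ 3) := by
    have hdis : Disjoint A0 B0 := by
      rw [Set.disjoint_left]
      rintro x ⟨_, hx⟩ ⟨_, hx1⟩
      linarith
    rw [← measure_union hdis hB0m]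
    have : A0 ∪ B0 = closedBall (0 : E3) ε := by
      ext x
      simp only [mem_union, hA0, hB0, mem_ofPred_eq, mem_closedBall, dist_zero_right,
        EuclideanSpace.norm_eq, Fin.sum_univ_three, Real.norm_eq_abs, sq_abs]
      rw [Real.sqrt_le_left hε]
      constructor
      · rintro (h1 | h1)
        · exact h1.1
        · exact h1.1
      · intro h1
        rcases lt_or_ge (x 2) 0 with h2 | h2
        · exact Or.inl ⟨h1, h2⟩
        · exact Or.inr ⟨h1, h2⟩
    rw [this, EuclideanSpace.volume_closedBall_fin_three, ← ENNReal.ofReal_pow hε,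
      ← ENNReal.ofReal_mul (by positivity)]
    congr 1
    ring
  rw [hdec, measure_union hd1 (hCm.union hBm), measure_union hd2 hBm, hAv, hBv, hC,
    vol_cyl h ε hh hε]
  rw [show volume A0 + (ENNReal.ofReal (π * ε ^ 2 * (2 * h)) + volume B0)
    = (volume A0 + volume B0) + ENNReal.ofReal (π * ε ^ 2 * (2 * h)) by ring, hsum,
    ← ENNReal.ofReal_add (by positivity) (by positivity)]
  congr 1
  ring

end Pool.Agent.H68
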