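import Mathlib

set_option autoImplicit false

namespace Pool.Agent.H68

open MeasureTheory Metric Set
open scoped RealInnerProductSpace ENNReal NNReal

section Proj

variable {E : Type*} [NormedAddCommGroup E] [InnerProductSpace ℝ E]

theorem exists_proj {K : Set E} (hne : K.Nonempty) (hc : IsComplete K) (hconv : Convex ℝ K) :
    ∃ p : E → E, (∀ x, p x ∈ K) ∧ ∀ x, ∀ w ∈ K, ⟪x - p x, w - p x⟫ ≤ 0 := by
  choose p hp hn using exists_norm_eq_iInf_of_complete_convex hne hc hconv
  exact ⟨p, hp, fun x => (norm_eq_iInf_iff_real_inner_le_zero hconv (hp x)).1 (hn x)⟩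

variable {K : Set E} {p : E → E}

theorem proj_firm (h1 : ∀ x, p x ∈ K) (h2 : ∀ x, ∀ w ∈ K, ⟪x - p x, w - p x⟫ ≤ 0) (x y : E) :
    ⟪p x - p y, p x - p y⟫ ≤ ⟪x - y, p x - p y⟫ := by
  have a := h2 x (p y) (h1 y)
  have b := h2 y (p x) (h1 x)
  have e : ⟪x - y, p x - p y⟫ - ⟪p x - p y, p x - p y⟫
      = - ⟪x - p x, p y - p x⟫ - ⟪y - p y, p x - p y⟫ := by
    simp only [inner_sub_left, inner_sub_right]
    ring
  linarith

theorem proj_unique (h1 : ∀ x, p x ∈ K) (h2 : ∀ x, ∀ w ∈ K, ⟪x - p x, w - p x⟫ ≤ 0)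
    (x v : E) (hv : v ∈ K) (hv2 : ∀ w ∈ K, ⟪x - v, w - v⟫ ≤ 0) : p x = v := by
  have a := h2 x v hv
  have b := hv2 (p x) (h1 x)
  have e : ⟪p x - v, p x - v⟫ = ⟪x - p x, v - p x⟫ + ⟪x - v, p x - v⟫ := by
    simp only [inner_sub_left, inner_sub_right]
    ring
  have h : ⟪p x - v, p x - v⟫ ≤ 0 := by linarith
  have h' : p x - v = 0 := real_inner_self_nonpos.1 h
  exact sub_eq_zero.1 h'

theorem proj_lipschitz (h1 : ∀ x, p x ∈ K) (h2 : ∀ x, ∀ w ∈ K, ⟪x - p x, w - p x⟫ ≤ 0) :
    LipschitzWith 1 p := by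
  refine LipschitzWith.of_dist_le_mul fun x y => ?_
  rw [dist_eq_norm, dist_eq_norm, NNReal.coe_one, one_mul]
  have a := proj_firm h1 h2 x y
  rw [real_inner_self_eq_norm_sq] at a
  have b := real_inner_le_norm (x - y) (p x - p y)
  by_contra hc
  push Not at hc
  have : ‖x - y‖ * ‖p x - p y‖ < ‖p x - p y‖ * ‖p x - p y‖ := by
    apply mul_lt_mul_of_pos_right hc
    exact lt_of_le_of_lt (norm_nonneg _) hc
  nlinarith

theorem proj_dist_le (h1 : ∀ x, p x ∈ K) (h2 : ∀ x, ∀ w ∈ K, ⟪x - p x, w - p x⟫ ≤ 0)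
    (x w : E) (hw : w ∈ K) : ‖x - p x‖ ≤ ‖x - w‖ := by
  have a := h2 x w hw
  have e : ‖x - w‖ ^ 2 = ‖x - p x‖ ^ 2 - 2 * ⟪x - p x, w - p x⟫ + ‖w - p x‖ ^ 2 := by
    have : x - w = (x - p x) - (w - p x) := by abel
    rw [this, norm_sub_sq_real]
  have : ‖x - p x‖ ^ 2 ≤ ‖x - w‖ ^ 2 := by
    have := sq_nonneg ‖w - p x‖
    linarith
  exact (sq_le_sq₀ (norm_nonneg _) (norm_nonneg _)).1 this

theorem proj_infDist (h1 : ∀ x, p x ∈ K) (h2 : ∀ x, ∀ w ∈ K, ⟪x - p x, w - p x⟫ ≤ 0)
    (x : E) : infDist x K = ‖x - p x‖ := by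
  apply le_antisymm
  · rw [← dist_eq_norm]
    exact infDist_le_dist_of_mem (h1 x)
  · have hne : K.Nonempty := ⟨p x, h1 x⟩
    rw [le_infDist hne]
    intro w hw
    rw [dist_eq_norm]
    exact proj_dist_le h1 h2 x w hw

/-- the radial rescaling map away from `K` -/
def phi (p : E → E) (t : ℝ) (x : E) : E := p x + t • (x - p x)

theorem phi_proj (h1 : ∀ x, p x ∈ K) (h2 : ∀ x, ∀ w ∈ K, ⟪x - p x, w - p x⟫ ≤ 0)
    {t : ℝ} (ht : 0 ≤ t) (x : E) : p (phi p t x) = p x := by
  apply proj_unique h1 h2 _ _ (h1 x)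
  intro w hw
  have : phi p t x - p x = t • (x - p x) := by simp [phi]
  rw [this, inner_smul_left]
  exact mul_nonpos_of_nonneg_of_nonpos (by simpa using ht) (h2 x w hw)

theorem phi_phi (h1 : ∀ x, p x ∈ K) (h2 : ∀ x, ∀ w ∈ K, ⟪x - p x, w - p x⟫ ≤ 0)
    {s t : ℝ} (ht : 0 ≤ t) (x : E) : phi p s (phi p t x) = phi p (s * t) x := by
  rw [phi, phi_proj h1 h2 ht x]
  simp [phi, smul_smul]

theorem phi_one (x : E) : phi p 1 x = x := by simp [phi]

theorem phi_injective (h1 : ∀ x, p x ∈ K) (h2 : ∀ x, ∀ w ∈ K, ⟪x - p x, w - p x⟫ ≤ 0)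
    {t : ℝ} (ht : 0 < t) : Function.Injective (phi p t) := by
  intro x y hxy
  have := congrArg (phi p t⁻¹) hxy
  rwa [phi_phi h1 h2 ht.le, phi_phi h1 h2 ht.le, inv_mul_cancel₀ ht.ne', phi_one, phi_one] at this

theorem phi_infDist (h1 : ∀ x, p x ∈ K) (h2 : ∀ x, ∀ w ∈ K, ⟪x - p x, w - p x⟫ ≤ 0)
    {t : ℝ} (ht : 0 ≤ t) (x : E) : infDist (phi p t x) K = t * infDist x K := by
  rw [proj_infDist h1 h2, proj_infDist h1 h2, phi_proj h1 h2 ht]
  have : phi p t x - p x = t • (x - p x) := by simp [phi]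
  rw [this, norm_smul, Real.norm_of_nonneg ht]

/-- the shell -/
def shell (K : Set E) (t : ℝ) : Set E := {x | 0 < infDist x K ∧ infDist x K ≤ t}

theorem phi_image_shell (h1 : ∀ x, p x ∈ K) (h2 : ∀ x, ∀ w ∈ K, ⟪x - p x, w - p x⟫ ≤ 0)
    {t : ℝ} (ht : 0 < t) : phi p t '' shell K 1 = shell K t := by
  ext y
  constructor
  · rintro ⟨x, ⟨hx1, hx2⟩, rfl⟩
    refine ⟨?_, ?_⟩
    · rw [phi_infDist h1 h2 ht.le]; positivity
    · rw [phi_infDist h1 h2 ht.le]
      nlinarith
  · rintro ⟨hy1, hy2⟩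
    refine ⟨phi p t⁻¹ y, ⟨?_, ?_⟩, ?_⟩
    · rw [phi_infDist h1 h2 (inv_nonneg.2 ht.le)]; positivity
    · rw [phi_infDist h1 h2 (inv_nonneg.2 ht.le), inv_mul_le_iff₀ ht]
      linarith
    · rw [phi_phi h1 h2 (inv_nonneg.2 ht.le), mul_inv_cancel₀ ht.ne', phi_one]

theorem phi_lipschitz (h1 : ∀ x, p x ∈ K) (h2 : ∀ x, ∀ w ∈ K, ⟪x - p x, w - p x⟫ ≤ 0)
    (t : ℝ) : ∃ C, LipschitzWith C (phi p t) := by
  have hp := proj_lipschitz h1 h2
  have h3 : LipschitzWith (1 + 1) (fun x => x - p x) := LipschitzWith.id.sub hp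
  have h4 := hp.add ((lipschitzWith_smul t).comp h3)
  exact ⟨_, h4⟩

end Proj

section Det

variable {E : Type*} [NormedAddCommGroup E] [InnerProductSpace ℝ E] [FiniteDimensional ℝ E]

theorem det_ne_zero_of_pos {B : E →L[ℝ] E} (h : ∀ v, v ≠ 0 → 0 < ⟪v, B v⟫) : B.det ≠ 0 := by
  intro h0
  have hb : (B : E →ₗ[ℝ] E).det = 0 := h0
  have : LinearMap.ker (B : E →ₗ[ℝ] E) ≠ ⊥ := by
    intro hk
    have hu := LinearMap.isUnit_iff_ker_eq_bot (B : E →ₗ[ℝ] E) |>.2 hk
    have := LinearMap.isUnit_iff_isUnit_det (B : E →ₗ[ℝ] E) |>.1 hu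
    rw [hb] at this
    exact not_isUnit_zero this
  obtain ⟨v, hv, hv0⟩ := (Submodule.ne_bot_iff _).1 this
  have h1 := h v hv0
  have h2 : B v = 0 := by simpa using hv
  rw [h2, inner_zero_right] at h1
  exact lt_irrefl _ h1

theorem inner_lin_pos {A : E →L[ℝ] E} (hA0 : ∀ v, 0 ≤ ⟪v, A v⟫) (hA1 : ∀ v, ⟪v, A v⟫ ≤ ‖v‖ ^ 2)
    {t : ℝ} (ht : 0 < t) (v : E) (hv : v ≠ 0) : 0 < ⟪v, (A + t • (1 - A)) v⟫ := by
  have hN : 0 < ‖v‖ ^ 2 := by positivity
  have e : ⟪v, (A + t • (1 - A)) v⟫ = ⟪v, A v⟫ + t * (‖v‖ ^ 2 - ⟪v, A v⟫) := by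
    simp [inner_add_right, inner_smul_right, inner_sub_right]
  rw [e]
  have a0 := hA0 v
  have a1 := hA1 v
  rcases eq_or_lt_of_le a0 with h | h
  · rw [← h]; simp; positivity
  · have : 0 ≤ t * (‖v‖ ^ 2 - ⟪v, A v⟫) := mul_nonneg ht.le (by linarith)
    linarith

theorem det_pos_aux {A : E →L[ℝ] E} (hA0 : ∀ v, 0 ≤ ⟪v, A v⟫) (hA1 : ∀ v, ⟪v, A v⟫ ≤ ‖v‖ ^ 2)
    {t : ℝ} (ht : 0 < t) : 0 < (A + t • (1 - A)).det := by
  by_contra hc
  push Not at hc
  have hcont : Continuous (fun s : ℝ => (A + s • (1 - A)).det) := by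
    apply ContinuousLinearMap.continuous_det.comp
    fun_prop
  have h1 : (A + (1 : ℝ) • (1 - A)).det = 1 := by
    have : A + (1 : ℝ) • (1 - A) = ContinuousLinearMap.id ℝ E := by
      ext v; simp
    rw [this]
    simp [ContinuousLinearMap.det]
  have := intermediate_value_uIcc (a := t) (b := 1) hcont.continuousOn
  have hm : (0 : ℝ) ∈ uIcc ((A + t • (1 - A)).det) ((A + (1 : ℝ) • (1 - A)).det) := by
    rw [h1, mem_uIcc]
    left
    exact ⟨hc, zero_le_one⟩
  obtain ⟨s, hs, hs0⟩ := this hm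
  have hs1 : 0 < s := by
    rw [mem_uIcc] at hs
    rcases hs with hs | hs
    · linarith [hs.1]
    · linarith [hs.1]
  exact det_ne_zero_of_pos (inner_lin_pos hA0 hA1 hs1) hs0

theorem det_poly (A : E →L[ℝ] E) : ∃ P : Polynomial ℝ,
    P.natDegree ≤ Module.finrank ℝ E ∧ ∀ t : ℝ, (A + t • (1 - A)).det = P.eval t := by
  classical
  let b := Module.finBasis ℝ E
  let M1 := LinearMap.toMatrix b b (((1 : E →L[ℝ] E) - A : E →L[ℝ] E) : E →ₗ[ℝ] E)
  let M0 := LinearMap.toMatrix b b (A : E →ₗ[ℝ] E)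
  refine ⟨Matrix.det ((Polynomial.X : Polynomial ℝ) • M1.map Polynomial.C + M0.map Polynomial.C),
    ?_, ?_⟩
  · have := Polynomial.natDegree_det_X_add_C_le M1 M0
    simpa using this
  · intro t
    have h1 : (A + t • (1 - A)).det = Matrix.det (t • M1 + M0) := by
      rw [ContinuousLinearMap.det, ← LinearMap.det_toMatrix b]
      congr 1
      have : ((A + t • (1 - A) : E →L[ℝ] E) : E →ₗ[ℝ] E)
        = t • (((1 : E →L[ℝ] E) - A : E →L[ℝ] E) : E →ₗ[ℝ] E) + (A : E →ₗ[ℝ] E) := by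
        ext v; simp [add_comm]
      rw [this, map_add, map_smul]
    rw [h1]
    have h2 : (Polynomial.evalRingHom t) (Matrix.det ((Polynomial.X : Polynomial ℝ) • M1.map Polynomial.C + M0.map Polynomial.C)) = Matrix.det (t • M1 + M0) := by
      rw [RingHom.map_det]
      congr 1
      ext i j
      simp
      ring
    rw [← h2]
    simp

end Det

section DerivProj

variable {E : Type*} [NormedAddCommGroup E] [InnerProductSpace ℝ E]
variable {K : Set E} {p : E → E}

theorem fderiv_proj_nonneg (h1 : ∀ x, p x ∈ K) (h2 : ∀ x, ∀ w ∈ K, ⟪x - p x, w - p x⟫ ≤ 0)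
    {x : E} (hx : DifferentiableAt ℝ p x) (v : E) : 0 ≤ ⟪v, fderiv ℝ p x v⟫ := by
  have hd : HasDerivAt (fun s : ℝ => p (x + s • v)) (fderiv ℝ p x v) 0 := by
    have hp : HasFDerivAt p (fderiv ℝ p x) (x + (0 : ℝ) • v) := by
      simpa using hx.hasFDerivAt
    have hl : HasDerivAt (fun s : ℝ => x + s • v) v 0 := by
      simpa using ((hasDerivAt_id (0 : ℝ)).smul_const v).const_add x
    exact hp.comp_hasDerivAt (0 : ℝ) hl
  have hg : HasDerivAt (fun s : ℝ => ⟪v, p (x + s • v)⟫) ⟪v, fderiv ℝ p x v⟫ 0 := by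
    exact (innerSL ℝ v).hasFDerivAt.comp_hasDerivAt (0 : ℝ) hd
  have ht := hg.tendsto_slope_zero_right
  refine ge_of_tendsto ht ?_
  filter_upwards [self_mem_nhdsWithin] with s hs
  have hs' : (0 : ℝ) < s := hs
  have hf := proj_firm h1 h2 (x + s • v) x
  have h0 : 0 ≤ ⟪x + s • v - x, p (x + s • v) - p x⟫ := le_trans real_inner_self_nonneg hf
  rw [add_sub_cancel_left, inner_smul_left] at h0
  simp only [zero_add, zero_smul, add_zero, smul_eq_mul]
  rw [← inner_sub_right]
  have h3 : 0 ≤ ⟪v, p (x + s • v) - p x⟫ := by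
    by_contra hcon
    push Not at hcon
    have : s * ⟪v, p (x + s • v) - p x⟫ < 0 := mul_neg_of_pos_of_neg hs' hcon
    simp at h0
    linarith
  positivity

theorem fderiv_proj_le (h1 : ∀ x, p x ∈ K) (h2 : ∀ x, ∀ w ∈ K, ⟪x - p x, w - p x⟫ ≤ 0)
    (x : E) (v : E) : ⟪v, fderiv ℝ p x v⟫ ≤ ‖v‖ ^ 2 := by
  have hn : ‖fderiv ℝ p x‖ ≤ 1 := by
    simpa using norm_fderiv_le_of_lipschitz ℝ (proj_lipschitz h1 h2)
  calc ⟪v, fderiv ℝ p x v⟫ ≤ ‖v‖ * ‖fderiv ℝ p x v‖ := real_inner_le_norm _ _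
    _ ≤ ‖v‖ * (1 * ‖v‖) := by
        apply mul_le_mul_of_nonneg_left _ (norm_nonneg _)
        exact (fderiv ℝ p x).le_of_opNorm_le hn v
    _ = ‖v‖ ^ 2 := by ring

end DerivProj

section Volume

variable {E : Type*} [NormedAddCommGroup E] [InnerProductSpace ℝ E] [FiniteDimensional ℝ E]
  [MeasurableSpace E] [BorelSpace E]
variable {K : Set E} {p : E → E}

theorem null_image_lipschitz (μ : Measure E) [μ.IsAddHaarMeasure] {f : E → E} {C : ℝ≥0}
    (hf : LipschitzWith C f) {s : Set E} (hs : μ s = 0) : μ (f '' s) = 0 := by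
  have h1 : μH[Module.finrank ℝ E] s = 0 :=
    Measure.absolutelyContinuous_isAddHaarMeasure (μH[Module.finrank ℝ E]) μ hs
  have h2 : μH[Module.finrank ℝ E] (f '' s) = 0 := by
    have := hf.hausdorffMeasure_image_le (d := (Module.finrank ℝ E : ℝ)) (by positivity) s
    rw [h1, mul_zero] at this
    exact nonpos_iff_eq_zero.1 this
  exact Measure.absolutelyContinuous_isAddHaarMeasure μ (μH[Module.finrank ℝ E]) h2

/-- the set of differentiability points of `p` in the unit shell -/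
def good (p : E → E) (K : Set E) : Set E := shell K 1 ∩ {x | DifferentiableAt ℝ p x}

theorem shell_measurable (K : Set E) (t : ℝ) : MeasurableSet (shell K t) := by
  have h1 : MeasurableSet {x : E | 0 < infDist x K} :=
    measurableSet_lt measurable_const (continuous_infDist_pt K).measurable
  have h2 : MeasurableSet {x : E | infDist x K ≤ t} :=
    measurableSet_le (continuous_infDist_pt K).measurable measurable_const
  exact h1.inter h2

theorem good_measurable (p : E → E) (K : Set E) : MeasurableSet (good p K) :=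
  (shell_measurable K 1).inter (measurableSet_of_differentiableAt ℝ p)

theorem measure_shell (μ : Measure E) [μ.IsAddHaarMeasure]
    (h1 : ∀ x, p x ∈ K) (h2 : ∀ x, ∀ w ∈ K, ⟪x - p x, w - p x⟫ ≤ 0) {t : ℝ} (ht : 0 < t) :
    μ (shell K t) = ∫⁻ x in good p K, ENNReal.ofReal (fderiv ℝ p x + t • (1 - fderiv ℝ p x)).det ∂μ := by
  have hlip := proj_lipschitz h1 h2
  obtain ⟨C, hC⟩ := phi_lipschitz h1 h2 t
  have hbad : μ (shell K 1 \ good p K) = 0 := by
    have hae := hlip.ae_differentiableAt (μ := μ)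
    refine measure_mono_null ?_ hae
    intro x hx hd
    exact hx.2 ⟨hx.1, hd⟩
  have himg : μ (shell K t) = μ (phi p t '' good p K) := by
    rw [← phi_image_shell h1 h2 ht]
    apply le_antisymm
    · have hsub : phi p t '' shell K 1 ⊆ phi p t '' good p K ∪ phi p t '' (shell K 1 \ good p K) := by
        rw [← image_union]
        apply image_mono
        intro x hx
        by_cases hg : x ∈ good p K
        · exact Or.inl hg
        · exact Or.inr ⟨hx, hg⟩
      calc μ (phi p t '' shell K 1) ≤ μ (phi p t '' good p K ∪ phi p t '' (shell K 1 \ good p K)) :=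
            measure_mono hsub
        _ ≤ μ (phi p t '' good p K) + μ (phi p t '' (shell K 1 \ good p K)) := measure_union_le _ _
        _ = μ (phi p t '' good p K) := by
            rw [null_image_lipschitz μ hC hbad, add_zero]
    · exact measure_mono (image_mono inter_subset_left)
  rw [himg]
  have hder : ∀ x ∈ good p K, HasFDerivWithinAt (phi p t)
      (fderiv ℝ p x + t • (1 - fderiv ℝ p x)) (good p K) x := by
    intro x hx
    have hd : HasFDerivAt p (fderiv ℝ p x) x := hx.2.hasFDerivAt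
    have hid : HasFDerivAt (fun y : E => y) (1 : E →L[ℝ] E) x := hasFDerivAt_id x
    exact (hd.add ((hid.sub hd).const_smul t)).hasFDerivWithinAt
  rw [← lintegral_abs_det_fderiv_eq_addHaar_image μ (good_measurable p K) hder
    (phi_injective h1 h2 ht).injOn]
  apply setLIntegral_congr_fun (good_measurable p K)
  intro x hx
  have hpos := det_pos_aux (fderiv_proj_nonneg h1 h2 hx.2) (fderiv_proj_le h1 h2 x) ht
  simp only [abs_of_pos hpos]

theorem shell_bounded (hK : IsCompact K) (hne : K.Nonempty) (t : ℝ) : 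
    Bornology.IsBounded (shell K t) := by
  have hb : Bornology.IsBounded (cthickening t K) := hK.isBounded.cthickening
  refine hb.subset ?_
  intro x hx
  rw [mem_cthickening_iff]
  have h0 : infEDist x K ≠ ⊤ := infEDist_ne_top hne
  rw [← ENNReal.ofReal_toReal h0]
  exact ENNReal.ofReal_le_ofReal hx.2

/-- **Steiner formula** (existence of the polynomial). -/
theorem steiner_exists (μ : Measure E) [μ.IsAddHaarMeasure] (hK : IsCompact K)
    (hne : K.Nonempty) (hconv : Convex ℝ K) :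
    ∃ c : ℕ → ℝ, ∀ ε : ℝ, 0 < ε → (μ (cthickening ε K)).toReal
      = ∑ j ∈ Finset.range (Module.finrank ℝ E + 1), c j * ε ^ j := by
  classical
  obtain ⟨p, h1, h2⟩ := exists_proj hne hK.isComplete hconv
  set d := Module.finrank ℝ E with hd
  let v : ℕ → ℝ := fun i => (i : ℝ) + 1
  have hv : Set.InjOn v (Finset.range (d + 1)) := by
    intro i _ j _ hij
    simpa [v] using hij
  have hvpos : ∀ i, 0 < v i := fun i => by simp only [v]; positivity
  let g : ℝ → E → ℝ := fun t x => (fderiv ℝ p x + t • (1 - fderiv ℝ p x)).det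
  have hgmeas : ∀ t, Measurable (g t) := by
    intro t
    apply ContinuousLinearMap.continuous_det.measurable.comp
    have hm := measurable_fderiv ℝ p
    exact hm.add ((measurable_const.sub hm).const_smul t)
  have hfin : ∀ t, μ (shell K t) < ⊤ := fun t => (shell_bounded hK hne t).measure_lt_top
  have hgpos : ∀ t, 0 < t → ∀ x ∈ good p K, 0 < g t x := fun t ht x hx =>
    det_pos_aux (fderiv_proj_nonneg h1 h2 hx.2) (fderiv_proj_le h1 h2 x) ht
  have hgnn : ∀ t, 0 < t → 0 ≤ᵐ[μ.restrict (good p K)] g t := by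
    intro t ht
    filter_upwards [ae_restrict_mem (good_measurable p K)] with x hx
    exact (hgpos t ht x hx).le
  have hgint : ∀ t, 0 < t → Integrable (g t) (μ.restrict (good p K)) := by
    intro t ht
    refine ⟨(hgmeas t).aestronglyMeasurable, ?_⟩
    rw [hasFiniteIntegral_iff_ofReal (hgnn t ht), ← measure_shell μ h1 h2 ht]
    exact hfin t
  have hV : ∀ t, 0 < t → (μ (shell K t)).toReal = ∫ x in good p K, g t x ∂μ := by
    intro t ht
    rw [integral_eq_lintegral_of_nonneg_ae (hgnn t ht) (hgmeas t).aestronglyMeasurable,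
      measure_shell μ h1 h2 ht]
  have hlag : ∀ t x, g t x = ∑ i ∈ Finset.range (d + 1),
      g (v i) x * (Lagrange.basis (Finset.range (d + 1)) v i).eval t := by
    intro t x
    obtain ⟨P, hP1, hP2⟩ := det_poly (fderiv ℝ p x)
    have hdeg : P.degree < (Finset.range (d + 1)).card := by
      rw [Finset.card_range]
      calc P.degree ≤ P.natDegree := Polynomial.degree_le_natDegree
        _ < ((d + 1 : ℕ) : WithBot ℕ) := by
          exact_mod_cast Nat.lt_succ_of_le hP1
    have := Lagrange.eq_interpolate hv hdeg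
    show (fderiv ℝ p x + t • (1 - fderiv ℝ p x)).det = _
    rw [hP2 t, this, Lagrange.interpolate_apply, Polynomial.eval_finsetSum]
    apply Finset.sum_congr rfl
    intro i _
    rw [Polynomial.eval_mul, Polynomial.eval_C]
    congr 1
    exact (hP2 (v i)).symm
  have hVlag : ∀ t, 0 < t → (μ (shell K t)).toReal = ∑ i ∈ Finset.range (d + 1),
      (μ (shell K (v i))).toReal * (Lagrange.basis (Finset.range (d + 1)) v i).eval t := by
    intro t ht
    rw [hV t ht]
    simp_rw [hlag t]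
    rw [integral_finsetSum]
    · apply Finset.sum_congr rfl
      intro i _
      rw [integral_mul_const, hV (v i) (hvpos i)]
    · intro i _
      exact (hgint (v i) (hvpos i)).mul_const _
  let Q : Polynomial ℝ := Polynomial.C (μ K).toReal + ∑ i ∈ Finset.range (d + 1),
      Polynomial.C (μ (shell K (v i))).toReal * Lagrange.basis (Finset.range (d + 1)) v i
  have hQdeg : Q.natDegree < d + 1 := by
    apply Nat.lt_succ_of_le
    apply (Polynomial.natDegree_add_le _ _).trans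
    apply max_le
    · simp
    · apply Polynomial.natDegree_sum_le_of_forall_le
      intro i hi
      apply (Polynomial.natDegree_C_mul_le _ _).trans
      have := Lagrange.degree_basis hv hi
      rw [Finset.card_range] at this
      have h3 := Polynomial.natDegree_eq_of_degree_eq_some this
      rw [h3]; simp
  refine ⟨fun j => Q.coeff j, fun ε hε => ?_⟩
  rw [← Polynomial.eval_eq_sum_range' hQdeg]
  have hsplit : cthickening ε K = K ∪ shell K ε := by
    ext x
    rw [hK.cthickening_eq_biUnion_closedBall hε.le]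
    constructor
    · intro hx
      simp only [mem_iUnion, mem_closedBall] at hx
      obtain ⟨y, hy, hxy⟩ := hx
      by_cases hxK : x ∈ K
      · exact Or.inl hxK
      · right
        refine ⟨?_, (infDist_le_dist_of_mem hy).trans hxy⟩
        exact (hK.isClosed.notMem_iff_infDist_pos hne).1 hxK
    · rintro (hx | hx)
      · simp only [mem_iUnion, mem_closedBall]
        exact ⟨x, hx, by simpa using hε.le⟩
      · simp only [mem_iUnion, mem_closedBall]
        refine ⟨p x, h1 x, ?_⟩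
        rw [dist_eq_norm, ← proj_infDist h1 h2]
        exact hx.2
  have hdisj : Disjoint K (shell K ε) := by
    rw [Set.disjoint_left]
    intro x hx hx2
    have := hx2.1
    rw [infDist_zero_of_mem hx] at this
    exact lt_irrefl _ this
  rw [hsplit, measure_union hdisj (shell_measurable K ε),
    ENNReal.toReal_add hK.measure_lt_top.ne (hfin ε).ne, hVlag ε hε]
  simp [Q, Polynomial.eval_finsetSum]

end Volume

end Pool.Agent.H68
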